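import Pool.Agent.Lib.MP_59b239_al.CD.Spec
import Pool.Agent.Lib.MP_59b239_al.CT.THN

/-!
# Module PR3: bounded search for a conjugator
-/

namespace Pool.Agent.Lib.MP59b239.CD

open Pool.Agent.Lib.MP59b239.CJ Pool.Agent.Lib.MP59b239.CT

namespace PR3M

/-- The bound for the length of the conjugators is primitive recursive. -/
theorem primrec_bound {n : ℕ} (K : ℕ) :
    Primrec fun p : List (Let n) × List (Let n) => K ^ ((p.1.length + p.2.length + 1) ^ 5) := by
  have h1 : Primrec fun p : List (Let n) × List (Let n) => p.1.length + p.2.length + 1 :=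
    Primrec.succ.comp (Primrec.nat_add.comp
      (Primrec.list_length.comp Primrec.fst) (Primrec.list_length.comp Primrec.snd))
  exact CT.PR2M.primrec_pow.comp (Primrec.const K)
    (CT.PR2M.primrec_pow.comp h1 (Primrec.const 5))

end PR3M

open CPCM in
theorem specPR3 (hWRD : SpecWRD) (hANY : SpecANY) : SpecPR3 := by
  intro G _ n gen hwp K hK
  obtain ⟨W, hW, hWm⟩ := hWRD n
  obtain ⟨f, hf, hfe⟩ := ComputablePred.computable_iff.mp hwp
  have key := hANY (List (Let n) × List (Let n)) (List (Let n))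
    (fun p => W (K ^ ((p.1.length + p.2.length + 1) ^ 5)))
    (fun z => ev gen (inv z.2 ++ (z.1.1 ++ (z.2 ++ inv z.1.2))) = 1)
    (hW.comp (PR3M.primrec_bound K).to_comp)
    (ComputablePred.computable_iff.mpr ⟨fun z => f (inv z.2 ++ (z.1.1 ++ (z.2 ++ inv z.1.2))),
      hf.comp primrec_word.to_comp, by
        funext z
        exact congrFun hfe _⟩)
  refine key.of_eq fun p => ?_
  constructor
  · rintro ⟨v, -, hv⟩
    rw [ev_append, ev_append, ev_append, ev_inv, ev_inv] at hv
    rw [isConj_iff]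
    refine ⟨(ev gen v)⁻¹, ?_⟩
    have : (ev gen v)⁻¹ * (ev gen p.1 * (ev gen v * (ev gen p.2)⁻¹)) * ev gen p.2 =
      1 * ev gen p.2 := by rw [hv]
    simpa [mul_assoc] using this
  · intro hc
    obtain ⟨v, hv, he⟩ := hK p.1 p.2 hc
    refine ⟨v, (hWm _ _).mpr hv, ?_⟩
    rw [ev_append, ev_append, ev_append, ev_inv, ev_inv, ← he]
    group

end Pool.Agent.Lib.MP59b239.CD
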