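import Pool.Agent.Lib.MP_59b239_al.CD.Spec
import Pool.Agent.Lib.MP_59b239_al.CJ.ZFR
import Pool.Agent.Lib.MP_59b239_al.CT.THN

section
/-!
# CD, module ISR: quadratic isoperimetric inequality with a linear radius
-/
namespace Pool.Agent.Lib.MP59b239.CD

open Pool.Agent.Lib.MP59b239.CJ Pool.Agent.Lib.MP59b239.CT

namespace ISRM

/-- The support of the image of a chain. -/
theorem exists_of_mp_ne_zero {V W : Type} (θ : V → W) (r : ℕ) (c : V × Fin r →₀ ℤ)
    (s : W × Fin r) (h : mp θ r c s ≠ 0) : ∃ s', c s' ≠ 0 ∧ (θ s'.1, s'.2) = s := by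
  classical
  rw [mp_apply] at h
  have h1 := Finsupp.mapDomain_support (Finsupp.mem_support_iff.mpr h)
  obtain ⟨s', hs', he⟩ := Finset.mem_image.mp h1
  exact ⟨s', Finsupp.mem_support_iff.mp hs', he⟩

section

variable {G : Type} [Group G] {n : ℕ} {gen : Fin n → G}

theorem exists_word (h : Subgroup.closure (Set.range gen) = ⊤) (g : G) :
    ∃ w : List (Let n), ev gen w = g := by
  have hg : g ∈ Subgroup.closure (Set.range gen) := by rw [h]; trivial
  induction hg using Subgroup.closure_induction with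
  | mem x hx =>
    obtain ⟨i, rfl⟩ := hx
    exact ⟨[Sum.inl i], by simp [ev]⟩
  | one => exact ⟨[], rfl⟩
  | mul x y _ _ hx hy =>
    obtain ⟨u, rfl⟩ := hx
    obtain ⟨w, rfl⟩ := hy
    exact ⟨u ++ w, ev_append gen u w⟩
  | inv x _ hx =>
    obtain ⟨u, rfl⟩ := hx
    exact ⟨inv u, ev_inv gen u⟩

variable (gen)

/-- Bounded fillings of short words. -/
theorem bdr {m : ℕ} (rel : Fin m → List (Let n)) (hREL : SpecREL) (hP : Presents gen rel) (R : ℕ) :
    ∃ C₀ : ℕ, ∀ w : List (Let n), w.length ≤ R → ev gen w = 1 → ∀ x : G,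
      ∃ c : G × Fin m →₀ ℤ, bd2 (rsh gen) rel c = chn (rsh gen) x w ∧ nrm c ≤ C₀ ∧
        ∀ s, c s ≠ 0 → Rch (rsh gen) C₀ x s.1 := by
  classical
  have hR := (hREL G n m gen rel hP).2
  have hfin : Set.Finite {w : List (Let n) | w.length ≤ R} := List.finite_length_le _ R
  have hc : ∀ w : List (Let n), ∃ c : G × Fin m →₀ ℤ,
      ev gen w = 1 → bd2 (rsh gen) rel c = chn (rsh gen) 1 w := by
    intro w
    by_cases hw : ev gen w = 1
    · obtain ⟨c, hc⟩ := hR 1 w hw
      exact ⟨c, fun _ => hc⟩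
    · exact ⟨0, fun h => absurd h hw⟩
  choose c hc using hc
  choose wd hwd using exists_word hP.1
  let N : List (Let n) → ℕ := fun w => nrm (c w) + ∑ s ∈ (c w).support, (wd s.1).length
  refine ⟨∑ w ∈ hfin.toFinset, N w, fun w hwR hw x => ?_⟩
  have hN : N w ≤ ∑ w ∈ hfin.toFinset, N w :=
    Finset.single_le_sum (f := N) (fun _ _ => Nat.zero_le _) (hfin.mem_toFinset.2 hwR)
  refine ⟨mp (fun y => x * y) m (c w), ?_, ?_, ?_⟩
  · rw [← ltr_bd2, hc w hw, ltr_chn, mul_one]
  · exact (nrm_mp_le _ _ _).trans ((Nat.le_add_right _ _).trans hN)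
  · intro s hs
    obtain ⟨s', hs', he⟩ := exists_of_mp_ne_zero _ _ _ _ hs
    have h1 : (wd s'.1).length ≤ ∑ s ∈ (c w).support, (wd s.1).length :=
      Finset.single_le_sum (f := fun s : G × Fin m => (wd s.1).length)
        (fun _ _ => Nat.zero_le _) (Finsupp.mem_support_iff.mpr hs')
    refine ⟨wd s'.1, (h1.trans (Nat.le_add_left _ _)).trans hN, ?_⟩
    rw [wlk_rsh, hwd, ← he]

/-- Filling a strip, with a bound for the support. -/
theorem str {m : ℕ} (rel : Fin m → List (Let n)) (k C₀ : ℕ)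
    (hfill : ∀ w : List (Let n), w.length ≤ 2 * k + 2 → ev gen w = 1 → ∀ x : G,
      ∃ c : G × Fin m →₀ ℤ, bd2 (rsh gen) rel c = chn (rsh gen) x w ∧ nrm c ≤ C₀ ∧
        ∀ s, c s ≠ 0 → Rch (rsh gen) C₀ x s.1)
    (u v : List (Let n)) (a : Option (Let n)) (T : ℕ) (hu : u.length ≤ T) (hv : v.length ≤ T)
    (hev : ev gen v = ev gen u * ev gen a.toList)
    (hft : ∀ t : ℕ, ∃ w : List (Let n), w.length ≤ k ∧
      ev gen (u.take t) * ev gen w = ev gen (v.take t)) :
    ∃ c : G × Fin m →₀ ℤ, nrm c ≤ (T + 2) * C₀ ∧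
      bd2 (rsh gen) rel c =
        chn (rsh gen) 1 u + chn (rsh gen) (ev gen u) a.toList - chn (rsh gen) 1 v ∧
      ∀ s, c s ≠ 0 → Rch (rsh gen) (T + C₀) 1 s.1 := by
  choose d hdl hd using hft
  have hreach : ∀ t, ∀ s : G, Rch (rsh gen) C₀ (ev gen (u.take t)) s →
      Rch (rsh gen) (T + C₀) 1 s := by
    intro t s hs
    have h1 : Rch (rsh gen) T 1 (ev gen (u.take t)) :=
      ⟨u.take t, by rw [List.length_take]; omega, by rw [wlk_rsh, one_mul]⟩
    exact h1.trans hs
  have key : ∀ t : ℕ, ∃ c : G × Fin m →₀ ℤ, nrm c ≤ t * C₀ ∧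
      bd2 (rsh gen) rel c = STRM.F gen u v d 0 - STRM.F gen u v d t ∧
      ∀ s, c s ≠ 0 → Rch (rsh gen) (T + C₀) 1 s.1 := by
    intro t
    induction t with
    | zero => exact ⟨0, by simp, by simp, by simp⟩
    | succ t ih =>
      obtain ⟨c, hc, hb, hs⟩ := ih
      obtain ⟨e1, e2⟩ := STRM.step gen u v d hd t
      have hl : (d t ++ v[t]?.toList ++ inv (d (t + 1)) ++ inv u[t]?.toList).length ≤
          2 * k + 2 := by
        have h1 := hdl t
        have h2 := hdl (t + 1)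
        have h3 : v[t]?.toList.length ≤ 1 := by cases v[t]? <;> simp
        have h4 : u[t]?.toList.length ≤ 1 := by cases u[t]? <;> simp
        simp only [List.length_append, length_inv]
        omega
      obtain ⟨c', hb', hc', hs'⟩ := hfill _ hl e1 (ev gen (u.take t))
      refine ⟨c + c', (nrm_add_le _ _).trans ?_, ?_, ?_⟩
      · rw [add_mul, one_mul]; exact add_le_add hc hc'
      · rw [map_add, hb, hb', e2]; abel
      · intro s hs1
        by_cases h0 : c s = 0
        · by_cases h0' : c' s = 0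
          · rw [Finsupp.add_apply, h0, h0'] at hs1
            exact absurd rfl hs1
          · exact hreach t _ (hs' s h0')
        · exact hs s h0
  obtain ⟨c, hc, hb, hs⟩ := key T
  have hTu : u.take T = u := List.take_of_length_le hu
  have hTv : v.take T = v := List.take_of_length_le hv
  have hd0 : ev gen (d 0) = 1 := by
    have := hd 0
    simpa using this
  obtain ⟨c1, hb1, hc1, hs1⟩ := hfill (d 0) (by have := hdl 0; omega) hd0 1
  have hdT : ev gen (d T) = ev gen a.toList := by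
    have := hd T
    rw [hTu, hTv, hev] at this
    exact mul_left_cancel this
  have hl2 : (d T ++ inv a.toList).length ≤ 2 * k + 2 := by
    have h1 := hdl T
    have h2 : a.toList.length ≤ 1 := by cases a <;> simp
    simp only [List.length_append, length_inv]
    omega
  obtain ⟨c2, hb2, hc2, hs2⟩ := hfill (d T ++ inv a.toList) hl2
    (by rw [ev_append, ev_inv, hdT, mul_inv_cancel]) (ev gen u)
  have e5 : chn (rsh gen) (ev gen u) (d T ++ inv a.toList) =
      chn (rsh gen) (ev gen u) (d T) - chn (rsh gen) (ev gen u) a.toList := by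
    rw [chn_append, wlk_rsh, hdT]
    have := chn_inv (rsh gen) (ev gen u) a.toList
    rw [wlk_rsh] at this
    rw [this]; abel
  refine ⟨c1 - c - c2, ?_, ?_, ?_⟩
  · have h1 := nrm_sub_le (c1 - c) c2
    have h2 := nrm_sub_le c1 c
    have h3 : (T + 2) * C₀ = T * C₀ + 2 * C₀ := by ring
    omega
  · rw [map_sub, map_sub, hb, hb1, hb2, e5]
    simp only [STRM.F, hTu, hTv, List.take_zero, chn, ev_nil]
    abel
  · intro s hs3
    by_cases h0 : c s = 0
    · by_cases h1 : c1 s = 0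
      · by_cases h2 : c2 s = 0
        · rw [Finsupp.sub_apply, Finsupp.sub_apply, h0, h1, h2] at hs3
          exact absurd rfl hs3
        · have := hs2 s h2
          rw [← hTu] at this
          exact hreach T _ this
      · exact (hs1 s h1).mono (by omega)
    · exact hs s h0

variable {gen}

/-- The induction over the word: a word of the language which follows the path. -/
theorem step {m : ℕ} (rel : Fin m → List (Let n)) (L : Language (Let n)) (k K C₀ : ℕ)
    (hft : FT gen L k)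
    (hlen : ∀ u ∈ L, ∀ a : Let n, ∃ v ∈ L, ev gen v = ev gen u * ev gen [a] ∧
        v.length ≤ u.length + K)
    (hstr : ∀ (u v : List (Let n)) (a : Option (Let n)) (T : ℕ), u.length ≤ T → v.length ≤ T →
      ev gen v = ev gen u * ev gen a.toList →
      (∀ t : ℕ, ∃ w : List (Let n), w.length ≤ k ∧
        ev gen (u.take t) * ev gen w = ev gen (v.take t)) →
      ∃ c : G × Fin m →₀ ℤ, nrm c ≤ (T + 2) * C₀ ∧
        bd2 (rsh gen) rel c =
          chn (rsh gen) 1 u + chn (rsh gen) (ev gen u) a.toList - chn (rsh gen) 1 v ∧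
        ∀ s, c s ≠ 0 → Rch (rsh gen) (T + C₀) 1 s.1)
    (w : List (Let n)) :
    ∀ u ∈ L, ∃ v ∈ L, ev gen v = ev gen u * ev gen w ∧ v.length ≤ u.length + K * w.length ∧
      ∃ c : G × Fin m →₀ ℤ, nrm c ≤ w.length * ((u.length + K * w.length + 2) * C₀) ∧
        bd2 (rsh gen) rel c =
          chn (rsh gen) 1 u + chn (rsh gen) (ev gen u) w - chn (rsh gen) 1 v ∧
        ∀ s, c s ≠ 0 → Rch (rsh gen) (u.length + K * w.length + C₀) 1 s.1 := by
  induction w with
  | nil =>
    intro u hu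
    exact ⟨u, hu, by simp, by simp, 0, by simp, by simp [chn], by simp⟩
  | cons a w ih =>
    intro u hu
    obtain ⟨v', hv', hev', hlv'⟩ := hlen u hu a
    obtain ⟨c₁, hc₁, hb₁, hs₁⟩ := hstr u v' (some a) (u.length + K) (by omega) hlv'
      (by simpa using hev') (hft u hu v' hv' (some a) (by simpa using hev'))
    obtain ⟨v, hv, hev, hlv, c₂, hc₂, hb₂, hs₂⟩ := ih v' hv'
    have hle : v'.length + K * w.length ≤ u.length + K * (w.length + 1) := by
      rw [mul_add, mul_one]; omega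
    have hKle : K ≤ K * (w.length + 1) := Nat.le_mul_of_pos_right _ (by omega)
    refine ⟨v, hv, ?_, ?_, c₁ + c₂, ?_, ?_, ?_⟩
    · rw [hev, hev', mul_assoc, ← ev_append]; rfl
    · simp only [List.length_cons]; omega
    · refine (nrm_add_le _ _).trans ?_
      have h1 : (u.length + K + 2) * C₀ ≤ (u.length + K * (w.length + 1) + 2) * C₀ :=
        Nat.mul_le_mul_right _ (by omega)
      have h2 : w.length * ((v'.length + K * w.length + 2) * C₀) ≤
          w.length * ((u.length + K * (w.length + 1) + 2) * C₀) :=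
        Nat.mul_le_mul_left _ (Nat.mul_le_mul_right _ (by omega))
      simp only [List.length_cons]
      calc nrm c₁ + nrm c₂ ≤ (u.length + K * (w.length + 1) + 2) * C₀ +
            w.length * ((u.length + K * (w.length + 1) + 2) * C₀) := by
            exact Nat.add_le_add (hc₁.trans h1) (hc₂.trans h2)
        _ = (w.length + 1) * ((u.length + K * (w.length + 1) + 2) * C₀) := by ring
    · rw [map_add, hb₁, hb₂]
      have e1 : chn (rsh gen) (ev gen u) (a :: w) =
          chn (rsh gen) (ev gen u) (Option.some a).toList + chn (rsh gen) (ev gen v') w := by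
        have := chn_append (rsh gen) (ev gen u) [a] w
        simp only [List.singleton_append] at this
        rw [this, wlk_rsh, hev']
        rfl
      rw [e1]
      abel
    · intro s hs
      simp only [List.length_cons]
      by_cases h0 : c₁ s = 0
      · by_cases h1 : c₂ s = 0
        · rw [Finsupp.add_apply, h0, h1] at hs
          exact absurd rfl hs
        · exact (hs₂ s h1).mono (by omega)
      · exact (hs₁ s h0).mono (by omega)

end

end ISRM

theorem specISR (hLEN : SpecLEN) (hREL : SpecREL) : SpecISR := by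
  intro G _ n m gen rel hp ha
  obtain ⟨L, ⟨σ, _, M, hM⟩, hsurj, k, hft⟩ := ha
  obtain ⟨K, hK⟩ := hLEN G n gen L σ M hM hsurj k hft
  obtain ⟨C₀, hC₀⟩ := ISRM.bdr gen rel hREL hp (2 * k + 2)
  obtain ⟨u₀, hu₀, hev₀⟩ := hsurj 1
  have hstr := ISRM.str gen rel k C₀ hC₀
  refine ⟨(u₀.length + K + 2) * C₀ + (u₀.length + K + C₀), fun w hw => ?_⟩
  obtain ⟨v, hv, hev, hlv, c, hc, hb, hs⟩ := ISRM.step rel L k K C₀ hft hK hstr w u₀ hu₀
  rw [hev₀, hw, one_mul] at hev
  obtain ⟨c', hc', hb', hs'⟩ := hstr v u₀ none (u₀.length + K * w.length) hlv (by omega)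
    (by simp [hev, hev₀]) (hft v hv u₀ hu₀ none (by simp [hev, hev₀]))
  refine ⟨c + c', ?_, ?_, ?_⟩
  · rw [map_add, hb, hb', hev₀]
    simp [chn]
  · refine (nrm_add_le _ _).trans ?_
    have h1 : (u₀.length + K * w.length + 2) * C₀ ≤
        (w.length + 1) * ((u₀.length + K + 2) * C₀) := by
      rw [← mul_assoc]
      refine Nat.mul_le_mul_right _ ?_
      nlinarith [Nat.zero_le (u₀.length * w.length), Nat.zero_le w.length, Nat.zero_le K]
    calc nrm c + nrm c' ≤ w.length * ((u₀.length + K * w.length + 2) * C₀) +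
          (u₀.length + K * w.length + 2) * C₀ := Nat.add_le_add hc hc'
      _ = (w.length + 1) * ((u₀.length + K * w.length + 2) * C₀) := by ring
      _ ≤ (w.length + 1) * ((w.length + 1) * ((u₀.length + K + 2) * C₀)) :=
          Nat.mul_le_mul_left _ h1
      _ = (u₀.length + K + 2) * C₀ * (w.length + 1) ^ 2 := by ring
      _ ≤ _ := Nat.mul_le_mul_right _ (Nat.le_add_right _ _)
  · have hrad : u₀.length + K * w.length + C₀ ≤
        ((u₀.length + K + 2) * C₀ + (u₀.length + K + C₀)) * (w.length + 1) := by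
      calc u₀.length + K * w.length + C₀
          ≤ (u₀.length + K + C₀) * (w.length + 1) := by
            nlinarith [Nat.zero_le (u₀.length * w.length), Nat.zero_le (C₀ * w.length),
              Nat.zero_le K]
        _ ≤ _ := Nat.mul_le_mul_right _ (Nat.le_add_left _ _)
    intro s hs1
    by_cases h0 : c s = 0
    · by_cases h1 : c' s = 0
      · rw [Finsupp.add_apply, h0, h1] at hs1
        exact absurd rfl hs1
      · exact (hs' s h1).mono hrad
    · exact (hs s h0).mono hrad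

end Pool.Agent.Lib.MP59b239.CD
end

section
/-!
# MP_59b239_al, CD: the choice of the parameters (NMA)
-/
set_option autoImplicit false

namespace Pool.Agent.Lib.MP59b239.CD

open Pool.Agent.Lib.MP59b239.CJ Pool.Agent.Lib.MP59b239.CT

namespace NMAM

/-- `(8 s + 1) B ≤ s M` gives `8 B ≤ M`. -/
theorem div_eight {s B M : ℕ} (h : (8 * s + 1) * B ≤ s * M) : 8 * B ≤ M := by
  rcases Nat.eq_zero_or_pos s with hs | hs
  · subst hs
    have : B = 0 := by
      simp only [Nat.mul_zero, Nat.zero_add, Nat.one_mul, Nat.zero_mul] at h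
      omega
    subst this
    omega
  · refine Nat.le_of_mul_le_mul_left (c := s) ?_ hs
    calc s * (8 * B) ≤ (8 * s + 1) * B := by
          have : (8 * s + 1) * B = s * (8 * B) + B := by ring
          rw [this]
          exact Nat.le_add_right _ _
      _ ≤ s * M := h

/-- the bound for `Λ` -/
theorem lam_le {C ρ l m c : ℕ} (hlm : l ≤ m) (hc : c ≤ 16 * C * (l + 1) * (m + 1)) :
    (l + 1) ^ 2 + ρ ^ 2 * (2 * ρ + 1) * c ≤ kB C ρ * (l + 1) * (m + 1) := by
  have h1 : (l + 1) ^ 2 ≤ (l + 1) * (m + 1) := by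
    rw [sq]
    exact Nat.mul_le_mul_left _ (by omega)
  have h2 : ρ ^ 2 * (2 * ρ + 1) * c ≤ ρ ^ 2 * (2 * ρ + 1) * (16 * C * (l + 1) * (m + 1)) :=
    Nat.mul_le_mul_left _ hc
  have h3 : kB C ρ * (l + 1) * (m + 1) =
      (l + 1) * (m + 1) + ρ ^ 2 * (2 * ρ + 1) * (16 * C * (l + 1) * (m + 1)) := by
    unfold kB
    ring
  rw [h3]
  exact Nat.add_le_add h1 h2

end NMAM

open NMAM

theorem specNMA (hNMC : CT.SpecNMC) : SpecNMA := by
  intro C ρ n l m hN hlm
  obtain ⟨c, hc1, hc2⟩ := hN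
  have hc := hNMC C l m c hc1 hlm
  have hΛ := lam_le (ρ := ρ) hlm hc
  have hB : 0 < kB C ρ := by unfold kB; omega
  obtain ⟨A, hA⟩ : ∃ A, A = dA C ρ l := ⟨_, rfl⟩
  have hAl : l + 1 ≤ A := by
    rw [hA]
    unfold dA
    exact Nat.le_mul_of_pos_left _ (by positivity)
  obtain ⟨τ, hτ, hLν⟩ := hc2 A (by omega) (by omega)
  obtain ⟨Ba, Bd, ha, hd, hm⟩ := hLν (kL C ρ l) (dN C ρ A l)
  rw [← hA]
  -- the long steps
  have e1 : 8 * ((32 * C + 4 * ρ + 10) * τ) ≤ m + 1 := by
    have h1 : A * τ = kB C ρ * (l + 1) * (8 * ((32 * C + 4 * ρ + 10) * τ)) := by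
      rw [hA]
      unfold dA
      ring
    rw [h1] at hτ
    exact Nat.le_of_mul_le_mul_left (hτ.trans hΛ) (by positivity)
  -- the slices of big norm
  have e2 : 8 * Ba ≤ m + 1 := by
    refine div_eight (s := 16 * C * ρ ^ 2 * (l + 1)) ?_
    calc (8 * (16 * C * ρ ^ 2 * (l + 1)) + 1) * Ba = (kL C ρ l + 1) * Ba := by
          unfold kL
          ring
      _ ≤ ρ ^ 2 * c := ha
      _ ≤ ρ ^ 2 * (16 * C * (l + 1) * (m + 1)) := Nat.mul_le_mul_left _ hc
      _ = 16 * C * ρ ^ 2 * (l + 1) * (m + 1) := by ring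
  -- the levels with many near positions
  have e3 : 8 * Bd ≤ m + 1 := by
    refine div_eight (s := (2 * dK C ρ A + 1) * kB C ρ * (l + 1)) ?_
    calc (8 * ((2 * dK C ρ A + 1) * kB C ρ * (l + 1)) + 1) * Bd =
          (dN C ρ A l + 1) * Bd := by
          unfold dN
          ring
      _ ≤ (2 * dK C ρ A + 1) * ((l + 1) ^ 2 + ρ ^ 2 * (2 * ρ + 1) * c) := hd
      _ ≤ (2 * dK C ρ A + 1) * (kB C ρ * (l + 1) * (m + 1)) :=
          Nat.mul_le_mul_left _ hΛ
      _ = (2 * dK C ρ A + 1) * kB C ρ * (l + 1) * (m + 1) := by ring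
  have e4 : dM C ρ n A l = 2 * l + 4 * dK C ρ A + 4 +
      2 * ((2 * dK C ρ A + 1) * (2 * n + 1) ^ (kL C ρ l *
        (2 * (dN C ρ A l * dD C ρ A + dR C A + ρ) + 3))) := by
    unfold dM dV
    ring
  rw [e4]
  generalize (2 * dK C ρ A + 1) * (2 * n + 1) ^ (kL C ρ l *
    (2 * (dN C ρ A l * dD C ρ A + dR C A + ρ) + 3)) = R at hm ⊢
  generalize (32 * C + 4 * ρ + 10) * τ = T at hm e1
  generalize dK C ρ A = r at hm ⊢
  omega

end Pool.Agent.Lib.MP59b239.CD
end

section
/-!
# NMB: the growth of the constants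
-/
set_option autoImplicit false

namespace Pool.Agent.Lib.MP59b239.CD

open Pool.Agent.Lib.MP59b239.CJ Pool.Agent.Lib.MP59b239.CT

namespace NMBM

theorem sK (C ρ a x A : ℕ) (hx : 1 ≤ x) (hA : A ≤ a * x) :
    dR C A ≤ C * (8 * a + 1) * x ∧ dK C ρ A ≤ (C * (8 * a + 1) + ρ + 2 * a + 1) * x := by
  have h1 : dR C A ≤ C * (8 * a + 1) * x := by
    unfold dR
    calc C * (8 * A + 1) ≤ C * (8 * (a * x) + 1 * x) := by gcongr; omega
      _ = C * (8 * a + 1) * x := by ring
  refine ⟨h1, ?_⟩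
  unfold dK
  have h2 : ρ ≤ ρ * x := Nat.le_mul_of_pos_right _ hx
  calc dR C A + ρ + 2 * A + 1 ≤ C * (8 * a + 1) * x + ρ * x + 2 * (a * x) + 1 * x := by
        gcongr; omega
    _ = (C * (8 * a + 1) + ρ + 2 * a + 1) * x := by ring

theorem sD (C ρ a r x A : ℕ) (hx : 1 ≤ x) (hA : A ≤ a * x) (hR : dR C A ≤ r * x) :
    dD C ρ A ≤ (2 * r + 2 * ρ + 2) * (a + 2 * (2 * r + 2 * ρ + 2)) * x ^ 2 := by
  have hρ : 2 * ρ ≤ 2 * ρ * x := Nat.le_mul_of_pos_right _ hx
  have h1 : dS C ρ A ≤ (2 * r + 2 * ρ + 2) * x := by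
    unfold dS
    calc 2 * dR C A + 2 * ρ + 2 ≤ 2 * (r * x) + 2 * ρ * x + 2 * x := by
          gcongr; omega
      _ = (2 * r + 2 * ρ + 2) * x := by ring
  unfold dD
  generalize 2 * r + 2 * ρ + 2 = s at h1 ⊢
  calc dS C ρ A * (A + 2 * dS C ρ A) ≤ s * x * (a * x + 2 * (s * x)) := by gcongr
    _ = s * (a + 2 * s) * x ^ 2 := by ring

theorem sV (L N D R ρ l' n' d r x : ℕ) (hx : 1 ≤ x) (hL : L ≤ l' * x) (hN : N ≤ n' * x ^ 2)
    (hD : D ≤ d * x ^ 2) (hR : R ≤ r * x) :
    L * (2 * (N * D + R + ρ) + 3) ≤ l' * (2 * (n' * d + r + ρ) + 3) * x ^ 5 := by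
  have h4 : x ≤ x ^ 4 := Nat.le_self_pow (by norm_num) x
  have h5 : 1 ≤ x ^ 4 := hx.trans h4
  have hρ : ρ ≤ ρ * x ^ 4 := Nat.le_mul_of_pos_right _ h5
  have h3 : 3 ≤ 3 * x ^ 4 := Nat.le_mul_of_pos_right _ h5
  calc L * (2 * (N * D + R + ρ) + 3)
      ≤ l' * x * (2 * (n' * x ^ 2 * (d * x ^ 2) + r * x ^ 4 + ρ * x ^ 4) + 3 * x ^ 4) := by
        have hR' : R ≤ r * x ^ 4 := hR.trans (Nat.mul_le_mul_left _ h4)
        gcongr
    _ = l' * (2 * (n' * d + r + ρ) + 3) * x ^ 5 := by ring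

theorem fin (n l V k v K₀ x y : ℕ) (hx : 1 ≤ x) (hl : l ≤ x) (hxy : x ≤ y) (hV : V ≤ v * y)
    (hK : K₀ ≤ k * x) :
    2 * l + 4 * K₀ + 4 + 2 * (2 * K₀ + 1) * (2 * n + 1) ^ V ≤
      ((8 + 8 * k) * 2 * (2 * n + 1) ^ v) ^ y := by
  have hy : 1 ≤ y := hx.trans hxy
  have h1 : (2 * n + 1) ^ V ≤ ((2 * n + 1) ^ v) ^ y := by
    rw [← pow_mul]
    exact Nat.pow_le_pow_right (Nat.succ_pos _) hV
  have h2 : 1 ≤ ((2 * n + 1) ^ v) ^ y := Nat.one_le_pow _ _ (Nat.pow_pos (Nat.succ_pos _))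
  have h3 : y ≤ 2 ^ y := Nat.lt_two_pow_self.le
  have h4 : 8 + 8 * k ≤ (8 + 8 * k) ^ y := Nat.le_self_pow (by omega) _
  generalize (2 * n + 1) ^ V = w at h1 ⊢
  rw [mul_pow, mul_pow]
  generalize ((2 * n + 1) ^ v) ^ y = W at h1 h2 ⊢
  have hKy : K₀ ≤ k * y := hK.trans (Nat.mul_le_mul_left _ hxy)
  calc 2 * l + 4 * K₀ + 4 + 2 * (2 * K₀ + 1) * w
      ≤ 2 * y + 4 * (k * y) + 4 * y + 2 * (2 * (k * y) + 1 * y) * W := by
        gcongr <;> omega
    _ ≤ (2 * y + 4 * (k * y) + 4 * y) * W + 2 * (2 * (k * y) + 1 * y) * W := by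
        gcongr
        exact Nat.le_mul_of_pos_right _ h2
    _ = (8 + 8 * k) * y * W := by ring
    _ ≤ (8 + 8 * k) ^ y * 2 ^ y * W := by gcongr

end NMBM

theorem specNMB : SpecNMB := by
  intro C ρ n
  generalize ha : 8 * (32 * C + 4 * ρ + 10) * kB C ρ = a
  generalize hr : C * (8 * a + 1) = r
  generalize hk : r + ρ + 2 * a + 1 = k
  generalize hd : (2 * r + 2 * ρ + 2) * (a + 2 * (2 * r + 2 * ρ + 2)) = d
  generalize hn : 8 * (2 * k + 1) * kB C ρ = n'
  generalize hv : 128 * C * ρ ^ 2 * (2 * (n' * d + r + ρ) + 3) = v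
  refine ⟨(8 + 8 * k) * 2 * (2 * n + 1) ^ v, fun l => ?_⟩
  have hx : 1 ≤ l + 1 := Nat.le_add_left _ _
  have hA : dA C ρ l ≤ a * (l + 1) := by unfold dA; rw [ha]
  generalize dA C ρ l = A at hA ⊢
  obtain ⟨hR, hK⟩ := NMBM.sK C ρ a (l + 1) A hx hA
  rw [hr] at hR hK
  rw [hk] at hK
  have hD := NMBM.sD C ρ a r (l + 1) A hx hA hR
  rw [hd] at hD
  have hN : dN C ρ A l ≤ n' * (l + 1) ^ 2 := by
    unfold dN
    rw [← hn]
    calc 8 * (2 * dK C ρ A + 1) * kB C ρ * (l + 1)
        ≤ 8 * (2 * (k * (l + 1)) + 1 * (l + 1)) * kB C ρ * (l + 1) := by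
          gcongr; omega
      _ = 8 * (2 * k + 1) * kB C ρ * (l + 1) ^ 2 := by ring
  have hV : dV C ρ A l ≤ v * (l + 1) ^ 5 := by
    unfold dV
    rw [← hv]
    exact NMBM.sV _ _ _ _ ρ _ n' d r (l + 1) hx (by unfold kL; exact le_rfl) hN hD hR
  unfold dM
  exact NMBM.fin n l _ k v _ (l + 1) _ hx (Nat.le_succ l) (Nat.le_self_pow (by norm_num) _) hV hK

end Pool.Agent.Lib.MP59b239.CD
end

section
/-!
# CD, module RGZ: the part of a cycle in a separated region (helper95)
-/
namespace Pool.Agent.Lib.MP59b239.CD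

open Pool.Agent.Lib.MP59b239.CJ Pool.Agent.Lib.MP59b239.CT

namespace RGZM

theorem bd1_supp {V : Type} {n : ℕ} (σ : Fin n → Equiv.Perm V) (c : V × Fin n →₀ ℤ) (x : V)
    (h : bd1 σ c x ≠ 0) : ∃ e, c e ≠ 0 ∧ (x = e.1 ∨ x = σ e.2 e.1) := by
  classical
  by_contra hne
  push Not at hne
  apply h
  have h1 : bd1 σ c x =
      ∑ e ∈ c.support,
        (c e • (Finsupp.single (σ e.2 e.1) (1 : ℤ) - Finsupp.single e.1 1) : V →₀ ℤ) x := by
    unfold bd1
    rw [Finsupp.linearCombination_apply, Finsupp.sum, Finsupp.finsetSum_apply]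
  rw [h1]
  refine Finset.sum_eq_zero fun e he => ?_
  obtain ⟨h2, h3⟩ := hne e (Finsupp.mem_support_iff.mp he)
  rw [Finsupp.smul_apply, Finsupp.sub_apply, Finsupp.single_apply, Finsupp.single_apply,
    if_neg (fun h => h3 h.symm), if_neg (fun h => h2 h.symm), sub_zero, smul_zero]

theorem rch_end {V : Type} {n : ℕ} (σ : Fin n → Equiv.Perm V) (e : V × Fin n) (x : V)
    (h : x = e.1 ∨ x = σ e.2 e.1) : Rch σ 1 e.1 x := by
  rcases h with rfl | rfl
  · exact Rch.refl σ 1 e.1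
  · exact rch_stp σ e.1 (Sum.inl e.2)

end RGZM

open RGZM in
theorem specRGZ : SpecRGZ := by
  classical
  intro V n σ ω K₀ hK U U' z S T hz hbd hS hT hsep hω
  have hdis : ∀ x, U x → U' x → False := fun x h1 h2 => hsep x x h1 h2 (Rch.refl σ 2 x)
  set z' : V × Fin n →₀ ℤ := z.filter fun e => U e.1 with hz'
  have hK0 : (K₀ : ℤ) ≠ 0 := by exact_mod_cast hK.ne'
  have hval : ∀ e, (K₀ : ℤ) * z e = S e + T e := by
    intro e
    have := DFunLike.congr_fun hz e
    rwa [Finsupp.smul_apply, smul_eq_mul, Finsupp.add_apply] at this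
  have hS0 : ∀ e, ¬ U e.1 → S e = 0 := fun e h => by
    by_contra h1
    exact h (hS e h1)
  have hT0 : ∀ e, U e.1 → T e = 0 := fun e h => by
    by_contra h1
    exact hdis _ h (hT e h1)
  have hzS : (K₀ : ℤ) • z' = S := by
    ext e
    rw [Finsupp.smul_apply, smul_eq_mul, hz', Finsupp.filter_apply]
    split_ifs with h
    · rw [hval, hT0 e h, add_zero]
    · rw [mul_zero, hS0 e h]
  have hω' : ω z' = 1 := by
    have h0 : ω ((K₀ : ℤ) • z') = K₀ := by rw [hzS, hω]
    rw [map_smul, smul_eq_mul] at h0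
    exact mul_left_cancel₀ hK0 (by rw [h0, mul_one])
  refine ⟨z', ?_, hω', ?_, ?_⟩
  · by_contra hne
    obtain ⟨x, hx⟩ : ∃ x, bd1 σ z' x ≠ 0 := by
      by_contra h
      push Not at h
      exact hne (Finsupp.ext h)
    have h2 : bd1 σ (z - z') x ≠ 0 := by
      rw [map_sub, hbd, Finsupp.sub_apply, Finsupp.zero_apply, zero_sub]
      exact neg_ne_zero.mpr hx
    obtain ⟨e, he, hex⟩ := bd1_supp σ z' x hx
    obtain ⟨e', he', hex'⟩ := bd1_supp σ (z - z') x h2
    have hUe : U e.1 := by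
      by_contra h
      apply he
      rw [hz', Finsupp.filter_apply, if_neg h]
    have hUe' : ¬ U e'.1 := by
      intro h
      apply he'
      rw [Finsupp.sub_apply, hz', Finsupp.filter_apply, if_pos h, sub_self]
    have hze' : z e' ≠ 0 := by
      intro h
      apply he'
      rw [Finsupp.sub_apply, hz', Finsupp.filter_apply, if_neg hUe', h, sub_zero]
    have hTe' : T e' ≠ 0 := by
      intro h
      have h3 := hval e'
      rw [hS0 e' hUe', h, add_zero] at h3
      rcases mul_eq_zero.mp h3 with h4 | h4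
      · exact hK0 h4
      · exact hze' h4
    have hU'e' := hT e' hTe'
    have r1 := rch_end σ e x hex
    have r2 := (rch_end σ e' x hex').symm
    exact hsep _ _ hUe hU'e' (r1.trans r2)
  · unfold nrm
    rw [Finsupp.sum, Finsupp.sum]
    have hsub : z'.support ⊆ z.support := by
      rw [hz', Finsupp.support_filter]
      exact Finset.filter_subset _ _
    have h1 : ∑ e ∈ z'.support, (z' e).natAbs = ∑ e ∈ z'.support, (z e).natAbs := by
      refine Finset.sum_congr rfl fun e he => ?_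
      rw [hz', Finsupp.support_filter, Finset.mem_filter] at he
      rw [hz', Finsupp.filter_apply, if_pos he.2]
    rw [h1]
    exact Finset.sum_le_sum_of_subset hsub
  · intro e he
    by_contra h
    apply he
    rw [hz', Finsupp.filter_apply, if_neg h]

end Pool.Agent.Lib.MP59b239.CD
end

section
/-!
# CD, module SUP: the support lemma
-/
namespace Pool.Agent.Lib.MP59b239.CD

open Pool.Agent.Lib.MP59b239.CJ Pool.Agent.Lib.MP59b239.CT

namespace SUPM

section Alg

variable {A B : Type} [AddCommGroup A] [AddCommGroup B]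

theorem map_pow' (b : A →ₗ[ℤ] B) (S : Module.End ℤ A) (S' : Module.End ℤ B)
    (h : ∀ x, b (S x) = S' (b x)) (i : ℕ) (x : A) : b ((S ^ i) x) = (S' ^ i) (b x) := by
  induction i generalizing x with
  | zero => simp
  | succ i ih => rw [pow_succ, pow_succ, Module.End.mul_apply, Module.End.mul_apply, ih, h]

/-- Geometric sums. -/
def gs (S : Module.End ℤ A) (N : ℕ) : Module.End ℤ A := ∑ i ∈ Finset.range N, S ^ i

theorem gs_apply (S : Module.End ℤ A) (N : ℕ) (x : A) :
    gs S N x = ∑ i ∈ Finset.range N, (S ^ i) x := by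
  simp [gs, LinearMap.sum_apply]

theorem map_gs (b : A →ₗ[ℤ] B) (S : Module.End ℤ A) (S' : Module.End ℤ B)
    (h : ∀ x, b (S x) = S' (b x)) (N : ℕ) (x : A) : b (gs S N x) = gs S' N (b x) := by
  rw [gs_apply, gs_apply, map_sum]
  exact Finset.sum_congr rfl fun i _ => map_pow' b S S' h i x

theorem gs_mul (S : Module.End ℤ A) (N : ℕ) : gs S N * (1 - S) = 1 - S ^ N :=
  geom_sum_mul_neg S N

theorem commute_gs (T : Module.End ℤ A) (k N a : ℕ) : Commute (gs (T ^ k) N) (T ^ a) := by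
  refine Commute.sum_left _ _ _ fun i _ => ?_
  rw [← pow_mul]
  exact Commute.pow_pow_self T _ _

theorem commute_gs_gs (T : Module.End ℤ A) (k N k' N' : ℕ) :
    Commute (gs (T ^ k) N) (gs (T ^ k') N') := by
  refine Commute.sum_right _ _ _ fun i _ => ?_
  rw [← pow_mul]
  exact commute_gs T k N _

theorem key (b : A →ₗ[ℤ] B) (hb : ∀ x, b x = 0 → x = 0) (T : Module.End ℤ A)
    (T' : Module.End ℤ B) (hT : ∀ x, b (T x) = T' (b x)) (k k' : ℕ) (D Bc : A) (e f : B)
    (hD : b D = (1 - T' ^ k') e - (1 - T' ^ k) f)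
    (hB : b Bc = gs (T' ^ k) k' e - gs (T' ^ k') k f) :
    gs (T ^ k) k' (gs (T ^ k') k D) = Bc - (T ^ (k * k')) Bc := by
  rw [← sub_eq_zero]
  apply hb
  have hTk : ∀ (a : ℕ) (x : A), b ((T ^ a) x) = (T' ^ a) (b x) := map_pow' b T T' hT
  rw [map_sub, map_gs b _ _ (hTk k), map_gs b _ _ (hTk k'), map_sub, hTk, hD, hB, sub_eq_zero]
  set M := gs (T' ^ k) k'
  set M' := gs (T' ^ k') k
  have hM : M * (1 - T' ^ k) = 1 - T' ^ (k * k') := by
    rw [pow_mul]; exact gs_mul _ _
  have hM' : M' * (1 - T' ^ k') = 1 - T' ^ (k * k') := by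
    rw [mul_comm k k', pow_mul]; exact gs_mul _ _
  have c1 : M * M' = M' * M := commute_gs_gs T' k k' k' k
  have c2 : M * (1 - T' ^ (k * k')) = (1 - T' ^ (k * k')) * M := by
    have : Commute M (1 - T' ^ (k * k')) := (Commute.one_right M).sub_right (commute_gs T' _ _ _)
    exact this
  have c3 : M' * (1 - T' ^ (k * k')) = (1 - T' ^ (k * k')) * M' := by
    have : Commute M' (1 - T' ^ (k * k')) := (Commute.one_right M').sub_right (commute_gs T' _ _ _)
    exact this
  have e1 : M (M' ((1 - T' ^ k') e)) = (1 - T' ^ (k * k')) (M e) := by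
    have : M * (M' * (1 - T' ^ k')) = (1 - T' ^ (k * k')) * M := by rw [hM', c2]
    exact LinearMap.congr_fun this e
  have e2 : M (M' ((1 - T' ^ k) f)) = (1 - T' ^ (k * k')) (M' f) := by
    have : M * M' * (1 - T' ^ k) = (1 - T' ^ (k * k')) * M' := by
      rw [c1, mul_assoc, hM, c3]
    exact LinearMap.congr_fun this f
  rw [map_sub, map_sub, e1, e2]
  simp only [LinearMap.sub_apply, Module.End.one_apply, map_sub]
  abel

end Alg

section Orbit

variable {G : Type} [Group G] {m : ℕ}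

/-- The left translation by `g`. -/
noncomputable def tr (g : G) (r : ℕ) : Module.End ℤ (G × Fin r →₀ ℤ) := mp (fun y => g * y) r

theorem tr_apply (g : G) (c : G × Fin m →₀ ℤ) (x : G) (j : Fin m) :
    tr g m c (g * x, j) = c (x, j) := by
  have h : Function.Injective (Prod.map (fun y : G => g * y) (id : Fin m → Fin m)) :=
    Function.Injective.prodMap (mul_right_injective g) Function.injective_id
  exact Finsupp.mapDomain_apply h c (x, j)

theorem tr_apply' (g : G) (c : G × Fin m →₀ ℤ) (x : G) (j : Fin m) (i : ℤ) :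
    tr g m c (g ^ i * x, j) = c (g ^ (i - 1) * x, j) := by
  have h : g ^ i * x = g * (g ^ (i - 1) * x) := by
    rw [← mul_assoc, ← zpow_one_add]
    congr 2
    ring
  rw [h, tr_apply]

theorem tr_pow_apply (g : G) (c : G × Fin m →₀ ℤ) (x : G) (j : Fin m) (N : ℕ) (i : ℤ) :
    (tr g m ^ N) c (g ^ i * x, j) = c (g ^ (i - N) * x, j) := by
  induction N generalizing i with
  | zero => simp
  | succ N ih =>
    rw [pow_succ', Module.End.mul_apply, tr_apply', ih]
    congr 4
    push_cast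
    ring

/-- `c` vanishes on the orbit. -/
def Van (g x : G) (j : Fin m) (c : G × Fin m →₀ ℤ) : Prop := ∀ i : ℤ, c (g ^ i * x, j) = 0

theorem Van.pow {g x : G} {j : Fin m} {c : G × Fin m →₀ ℤ} (h : Van g x j c) (N : ℕ) :
    Van g x j ((tr g m ^ N) c) := fun i => by rw [tr_pow_apply]; exact h _

theorem Van.gs {g x : G} {j : Fin m} {c : G × Fin m →₀ ℤ} (h : Van g x j c) (k N : ℕ) :
    Van g x j (gs (tr g m ^ k) N c) := fun i => by
  rw [gs_apply, Finsupp.finsetSum_apply]
  refine Finset.sum_eq_zero fun a _ => ?_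
  rw [← pow_mul]
  exact h.pow _ i

theorem orbit (g : G) (hg : ∀ k : ℤ, g ^ k = 1 → k = 0) (x : G) (j : Fin m) (N : ℕ) (hN : 0 < N)
    (B : G × Fin m →₀ ℤ) (h : ∀ i : ℤ, B (g ^ i * x, j) = B (g ^ (i - N) * x, j)) :
    B (x, j) = 0 := by
  by_contra hne
  have h1 : ∀ t : ℕ, B (g ^ (-(N * t : ℤ)) * x, j) ≠ 0 := by
    intro t
    induction t with
    | zero => simpa using hne
    | succ t ih =>
      rw [h] at ih
      convert ih using 4
      push_cast
      ring_nf
  have h2 : Function.Injective fun t : ℕ => (g ^ (-(N * t : ℤ)) * x, j) := by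
    intro s t hst
    have h3 : g ^ (-(N * s : ℤ)) = g ^ (-(N * t : ℤ)) := mul_right_cancel (Prod.mk.inj hst).1
    have h4 : g ^ (-(N * s : ℤ) - -(N * t : ℤ)) = 1 := by rw [zpow_sub, h3, mul_inv_cancel]
    have h5 := hg _ h4
    have h6 : (N : ℤ) * (t - s) = 0 := by linarith
    rcases mul_eq_zero.mp h6 with h7 | h7
    · have : N = 0 := by exact_mod_cast h7
      omega
    · omega
  refine (Set.infinite_range_of_injective h2) (B.support.finite_toSet.subset ?_)
  rintro _ ⟨t, rfl⟩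
  exact Finsupp.mem_support_iff.mpr (h1 t)

end Orbit

section Words

variable {G : Type} [Group G] {n m : ℕ} (gen : Fin n → G)

theorem tr_chn (g x : G) (w : List (Let n)) :
    tr g n (chn (rsh gen) x w) = chn (rsh gen) (g * x) w := ltr_chn gen g x w

theorem tr_pow_chn (g x : G) (w : List (Let n)) (k : ℕ) :
    (tr g n ^ k) (chn (rsh gen) x w) = chn (rsh gen) (g ^ k * x) w := by
  induction k with
  | zero => simp
  | succ k ih => rw [pow_succ', Module.End.mul_apply, ih, tr_chn, pow_succ', mul_assoc]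

theorem bd2_tr (rel : Fin m → List (Let n)) (g : G) (c : G × Fin m →₀ ℤ) :
    bd2 (rsh gen) rel (tr g m c) = tr g n (bd2 (rsh gen) rel c) := (ltr_bd2 gen g rel c).symm

/-- The path of the power of a word. -/
theorem chn_pw (g y : G) (w : List (Let n)) (k : ℕ) (h : y * ev gen w = g ^ k * y) (N : ℕ) :
    chn (rsh gen) y (RCHM.pw w N) = gs (tr g n ^ k) N (chn (rsh gen) y w) := by
  have key : ∀ (N i : ℕ), chn (rsh gen) (g ^ (k * i) * y) (RCHM.pw w N) =
      ∑ a ∈ Finset.range N, chn (rsh gen) (g ^ (k * (i + a)) * y) w := by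
    intro N
    induction N with
    | zero => intro i; simp [RCHM.pw, chn]
    | succ N ih =>
      intro i
      rw [RCHM.pw, chn_append, wlk_rsh, Finset.sum_range_succ', add_zero, add_comm]
      congr 1
      have h1 : g ^ (k * i) * y * ev gen w = g ^ (k * (i + 1)) * y := by
        rw [mul_assoc, h, ← mul_assoc, ← pow_add]
        congr 2
      rw [h1, ih]
      refine Finset.sum_congr rfl fun a _ => ?_
      congr 4
      ring
  have h0 := key N 0
  rw [mul_zero, pow_zero, one_mul] at h0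
  rw [h0, gs_apply]
  refine Finset.sum_congr rfl fun a _ => ?_
  rw [← pow_mul, tr_pow_chn, zero_add]

/-- The boundary of the filling of the commutator. -/
theorem chn_comm (g y : G) (w u : List (Let n)) (k k' : ℕ) (h : y * ev gen w = g ^ k * y)
    (h' : y * ev gen u = g ^ k' * y) :
    ev gen (w ++ u ++ inv w ++ inv u) = 1 ∧
    chn (rsh gen) y (w ++ u ++ inv w ++ inv u) =
      (1 - tr g n ^ k') (chn (rsh gen) y w) - (1 - tr g n ^ k) (chn (rsh gen) y u) := by
  have hyk : ∀ a : ℕ, g ^ a * y * ev gen w = g ^ (a + k) * y := fun a => by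
    rw [mul_assoc, h, ← mul_assoc, ← pow_add]
  have hyk' : ∀ a : ℕ, g ^ a * y * ev gen u = g ^ (a + k') * y := fun a => by
    rw [mul_assoc, h', ← mul_assoc, ← pow_add]
  have hw1 : wlk (rsh gen) (g ^ k' * y) w = g ^ (k + k') * y := by
    rw [wlk_rsh, hyk, add_comm]
  have hi1 : chn (rsh gen) (g ^ (k + k') * y) (inv w) = -chn (rsh gen) (g ^ k' * y) w := by
    have := chn_inv (rsh gen) (g ^ k' * y) w
    rwa [hw1] at this
  have hi2 : wlk (rsh gen) (g ^ (k + k') * y) (inv w) = g ^ k' * y := by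
    have := wlk_inv (rsh gen) (g ^ k' * y) w
    rwa [hw1] at this
  have hi3 : chn (rsh gen) (g ^ k' * y) (inv u) = -chn (rsh gen) y u := by
    have := chn_inv (rsh gen) y u
    rwa [wlk_rsh, h'] at this
  have hi4 : wlk (rsh gen) (g ^ k' * y) (inv u) = y := by
    have := wlk_inv (rsh gen) y u
    have h1 : wlk (rsh gen) y u = g ^ k' * y := by rw [wlk_rsh, h']
    rwa [h1] at this
  have hwu : wlk (rsh gen) y (w ++ u) = g ^ (k + k') * y := by
    have h1 : wlk (rsh gen) y w = g ^ k * y := by rw [wlk_rsh, h]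
    rw [wlk_append, h1, wlk_rsh, hyk']
  constructor
  · have h1 : wlk (rsh gen) y (w ++ u ++ inv w ++ inv u) = y := by
      rw [wlk_append, wlk_append, hwu, hi2, hi4]
    rw [wlk_rsh] at h1
    exact mul_eq_left.mp h1
  · have h1 : wlk (rsh gen) y w = g ^ k * y := by rw [wlk_rsh, h]
    have h2 : wlk (rsh gen) y (w ++ u ++ inv w) = g ^ k' * y := by rw [wlk_append, hwu, hi2]
    rw [chn_append, h2, hi3, chn_append, hwu, hi1, chn_append, h1]
    simp only [LinearMap.sub_apply, Module.End.one_apply, tr_pow_chn]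
    abel

end Words

/-- Left translations and walks. -/
theorem rch_ltr {G : Type} [Group G] {n : ℕ} (gen : Fin n → G) (R : ℕ) (y s : G)
    (h : Rch (rsh gen) R 1 s) : Rch (rsh gen) R y (y * s) := by
  obtain ⟨w, hw, hs⟩ := h
  refine ⟨w, hw, ?_⟩
  rw [wlk_rsh, one_mul] at hs
  rw [wlk_rsh, hs]

end SUPM

open SUPM RCHM in
theorem specSUP : SpecSUP := by
  intro G _ n m gen rel C ρ g X K₀ k k' y V w w' hK hk hk' hdk hdk' hw hw'
  set z : G := y * ev gen V with hz
  have hw2 : y * ev gen w = g ^ (k : ℤ) * y := by rw [hw, zpow_natCast]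
  have hw2' : z * ev gen w' = g ^ (k' : ℤ) * z := by rw [hw', zpow_natCast]
  -- the conjugated word
  set u : List (Let n) := V ++ w' ++ inv V with hu
  have hu1 : y * ev gen u = g ^ k' * y := by
    rw [hu, ev_append, ev_append, ev_inv]
    calc y * (ev gen V * ev gen w' * (ev gen V)⁻¹) = (z * ev gen w') * (ev gen V)⁻¹ := by
          rw [hz]; group
      _ = g ^ k' * y := by rw [hw', hz]; group
  have hlp : wlk X.σ (X.π y) w = X.π y := X.wlk_loop y w k hw2
  have hlq : wlk X.σ (X.π z) w' = X.π z := X.wlk_loop z w' k' hw2'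
  have hv1 : wlk X.σ (X.π y) V = X.π z := by rw [X.toQD.wlk]
  have hcv : chn X.σ (X.π z) (inv V) = -chn X.σ (X.π y) V := by
    have := chn_inv X.σ (X.π y) V
    rwa [hv1] at this
  have hlq' : wlk X.σ (X.π z) (inv w') = X.π z := by
    have := wlk_inv X.σ (X.π z) w'
    rwa [hlq] at this
  have hcq : chn X.σ (X.π z) (inv w') = -chn X.σ (X.π z) w' := by
    have := chn_inv X.σ (X.π z) w'
    rwa [hlq] at this
  have hchu : chn X.σ (X.π y) u = chn X.σ (X.π z) w' := by
    rw [hu, chn_append, chn_append, wlk_append, hv1, hlq, hcv]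
    abel
  have hlu : wlk X.σ (X.π y) u = X.π y :=
    X.wlk_loop y u k' (by rw [hu1, zpow_natCast])
  -- the filling `D` of the commutator
  obtain ⟨hU1, hU2⟩ := chn_comm gen g y w u k k' hw hu1
  obtain ⟨D₀, hD1, -, hD3⟩ := X.iso _ hU1
  have hDb : bd2 (rsh gen) rel (mp (fun x => y * x) m D₀) =
      (1 - tr g n ^ k') (chn (rsh gen) y w) - (1 - tr g n ^ k) (chn (rsh gen) y u) := by
    rw [← ltr_bd2, hD1, ltr_chn, mul_one, hU2]
  have hUl : (w ++ u ++ inv w ++ inv u).length =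
      2 * w.length + 2 * w'.length + 4 * V.length := by
    simp only [hu, List.length_append, length_inv]
    ring
  have hDs : ∀ s, mp (fun x => y * x) m D₀ s ≠ 0 →
      Rch (rsh gen) (C * (2 * w.length + 2 * w'.length + 4 * V.length + 1)) y s.1 := by
    intro s hs
    obtain ⟨s', hs', he⟩ := ISRM.exists_of_mp_ne_zero _ _ _ _ hs
    have h1 := rch_ltr gen _ y _ (hD3 s' hs')
    rw [hUl] at h1
    rw [← he]
    exact h1
  set D := mp (fun x => y * x) m D₀ with hDdef
  -- the filling `B`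
  have hevB : ev gen (pw w k' ++ inv (pw u k)) = 1 := by
    have h1 : y * ev gen w ^ k' = g ^ (k * k') * y := mul_pow_eq g y _ k hw k'
    have h2 : y * ev gen u ^ k = g ^ (k' * k) * y := mul_pow_eq g y _ k' hu1 k
    rw [ev_append, ev_inv, ev_pw, ev_pw]
    have h3 : ev gen w ^ k' = ev gen u ^ k := by
      apply mul_left_cancel (a := y)
      rw [h1, h2, mul_comm k k']
    rw [h3, mul_inv_cancel]
  obtain ⟨B₀, hB1, -, -⟩ := X.iso _ hevB
  have hwu : wlk (rsh gen) y (pw w k') = g ^ (k * k') * y := by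
    rw [wlk_rsh, ev_pw, mul_pow_eq g y _ k hw k']
  have hwu' : wlk (rsh gen) y (pw u k) = g ^ (k * k') * y := by
    rw [wlk_rsh, ev_pw, mul_pow_eq g y _ k' hu1 k, mul_comm k' k]
  have hBb : bd2 (rsh gen) rel (mp (fun x => y * x) m B₀) =
      gs (tr g n ^ k) k' (chn (rsh gen) y w) - gs (tr g n ^ k') k (chn (rsh gen) y u) := by
    rw [← ltr_bd2, hB1, ltr_chn, mul_one, chn_append, hwu, ← SUPM.chn_pw gen g y w k hw,
      ← SUPM.chn_pw gen g y u k' hu1]
    have := chn_inv (rsh gen) y (pw u k)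
    rw [hwu'] at this
    rw [this]
    abel
  set B := mp (fun x => y * x) m B₀ with hBdef
  have hkey := key (bd2 (rsh gen) rel) X.injX (tr g m) (tr g n) (bd2_tr gen rel g) k k' D B _ _
    hDb hBb
  -- the support of `B`
  have hsupp : ∀ (x : G) (j : Fin m), B (x, j) ≠ 0 → ∃ i : ℤ, D (g ^ i * x, j) ≠ 0 := by
    intro x j hx
    by_contra hc
    push Not at hc
    apply hx
    refine orbit g X.g_inf x j (k * k') (Nat.mul_pos hk hk') B fun i => ?_
    have hv : Van g x j D := hc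
    have h1 := (hv.gs k' k).gs k k' i
    rw [hkey, Finsupp.sub_apply, tr_pow_apply] at h1
    have h2 := sub_eq_zero.mp h1
    rw [h2]
  -- the projection of `B`
  set c₁ := mp X.π m B with hc₁
  have hc₁b : bd2 X.σ rel c₁ = (k' : ℤ) • chn X.σ (X.π y) w - (k : ℤ) • chn X.σ (X.π z) w' := by
    have h1 : bd2 (rsh gen) rel B = chn (rsh gen) y (pw w k' ++ inv (pw u k)) := by
      rw [hBdef, ← ltr_bd2, hB1, ltr_chn, mul_one]
    rw [hc₁, ← X.toQD.mp_bd2, h1, X.toQD.mp_chn, chn_append, wlk_pw X.σ _ _ hlp,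
      RCHM.chn_pw X.σ _ _ hlp]
    have h2 := chn_inv X.σ (X.π y) (pw u k)
    rw [wlk_pw X.σ _ _ hlu, RCHM.chn_pw X.σ _ _ hlu, hchu] at h2
    rw [h2]
    abel
  have hc₁s : ∀ s, c₁ s ≠ 0 →
      Rch X.σ (C * (2 * w.length + 2 * w'.length + 4 * V.length + 1)) (X.π y) s.1 := by
    intro s hs
    obtain ⟨⟨x, j⟩, hx, he⟩ := ISRM.exists_of_mp_ne_zero _ _ _ _ hs
    obtain ⟨i, hi⟩ := hsupp x j hx
    obtain ⟨v, hv, hv2⟩ := hDs _ hi
    refine ⟨v, hv, ?_⟩
    rw [wlk_rsh] at hv2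
    rw [X.toQD.wlk, hv2, ← he]
    exact ((X.rel _ _).mpr ⟨i, rfl⟩).symm
  -- the chain `r`
  have hk1 : k * (K₀ / k) = K₀ := Nat.mul_div_cancel' hdk
  have hk2 : k' * (K₀ / k') = K₀ := Nat.mul_div_cancel' hdk'
  obtain ⟨r, hbr⟩ : ∃ r : X.Q × Fin m →₀ ℤ, bd2 X.σ rel r =
      ((K₀ / k : ℕ) : ℤ) • chn X.σ (X.π y) w - ((K₀ / k' : ℕ) : ℤ) • chn X.σ (X.π z) w' := by
    have hev : ev gen (pw w (K₀ / k) ++ V ++ pw (inv w') (K₀ / k') ++ inv V) = 1 := by
      have h1 : y * ev gen w ^ (K₀ / k) = g ^ (k * (K₀ / k)) * y := mul_pow_eq g y _ k hw _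
      have h2 : z * ev gen w' ^ (K₀ / k') = g ^ (k' * (K₀ / k')) * z :=
        mul_pow_eq g z _ k' hw' _
      rw [hk1] at h1
      rw [hk2] at h2
      have h3 : y * ev gen (pw w (K₀ / k) ++ V ++ pw (inv w') (K₀ / k') ++ inv V) = y * 1 := by
        simp only [ev_append, ev_inv, ev_pw, inv_pow]
        calc y * (ev gen w ^ (K₀ / k) * ev gen V * (ev gen w' ^ (K₀ / k'))⁻¹ * (ev gen V)⁻¹)
            = (y * ev gen w ^ (K₀ / k)) * ev gen V * (ev gen w' ^ (K₀ / k'))⁻¹ *
              (ev gen V)⁻¹ := by group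
          _ = g ^ K₀ * (y * ev gen V) * (ev gen w' ^ (K₀ / k'))⁻¹ * (ev gen V)⁻¹ := by
              rw [h1]; group
          _ = (z * ev gen w' ^ (K₀ / k')) * (ev gen w' ^ (K₀ / k'))⁻¹ * (ev gen V)⁻¹ := by
              rw [h2]
          _ = y * 1 := by rw [hz]; group
      exact mul_left_cancel h3
    obtain ⟨c, hb, -, -⟩ := X.iso _ hev
    refine ⟨mp X.π m (mp (fun x => y * x) m c), ?_⟩
    rw [← X.toQD.mp_bd2, ← ltr_bd2, hb, ltr_chn, X.toQD.mp_chn, mul_one]
    simp only [chn_append, wlk_append]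
    rw [wlk_pw X.σ _ _ hlp, hv1, wlk_pw X.σ _ _ hlq', RCHM.chn_pw X.σ _ _ hlp,
      RCHM.chn_pw X.σ _ _ hlq', hcq, hcv, smul_neg]
    abel
  have hrel : ((k * k' : ℕ) : ℤ) • r = (K₀ : ℤ) • c₁ := by
    have h0 : ((k * k' : ℕ) : ℤ) • r - (K₀ : ℤ) • c₁ = 0 := by
      apply X.inj
      rw [map_sub, map_smul, map_smul, hc₁b, hbr, smul_sub, smul_sub, smul_smul, smul_smul,
        smul_smul, smul_smul]
      have e1 : ((k * k' : ℕ) : ℤ) * ((K₀ / k : ℕ) : ℤ) = (K₀ : ℤ) * (k' : ℤ) := by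
        have : k * k' * (K₀ / k) = K₀ * k' := by
          calc k * k' * (K₀ / k) = (k * (K₀ / k)) * k' := by ring
            _ = K₀ * k' := by rw [hk1]
        exact_mod_cast this
      have e2 : ((k * k' : ℕ) : ℤ) * ((K₀ / k' : ℕ) : ℤ) = (K₀ : ℤ) * (k : ℤ) := by
        have : k * k' * (K₀ / k') = K₀ * k := by
          calc k * k' * (K₀ / k') = (k' * (K₀ / k')) * k := by ring
            _ = K₀ * k := by rw [hk2]
        exact_mod_cast this
      rw [e1, e2, sub_self]
    exact sub_eq_zero.1 h0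
  refine ⟨r, hbr, fun s hs => hc₁s s fun hc => ?_⟩
  have h1 := DFunLike.congr_fun hrel s
  rw [Finsupp.smul_apply, Finsupp.smul_apply, hc, smul_zero, smul_eq_mul] at h1
  rcases mul_eq_zero.1 h1 with h | h
  · have : k * k' = 0 := by exact_mod_cast h
    rcases Nat.mul_eq_zero.1 this with h | h <;> omega
  · exact hs h

end Pool.Agent.Lib.MP59b239.CD
end
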