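import Pool.Agent.Lib.MP_59b239_al.CT.Spec
import Pool.Agent.Lib.MP_59b239_al.CD.Basic

/-!
# The conjugacy problem for two-dimensional automatic groups (CD): the modules

THEOREM CD. Let `G` be automatic over `gen`, with an aspherical finite presentation `⟨gen | rel⟩`.
Then the conjugacy problem of `G` is solvable; if `g = ev p` and `ev q` are conjugate, then
`ev q = (ev v)⁻¹ g (ev v)` with `|v| ≤ K ^ ((|p| + |q| + 1) ^ 5)`. There is no other condition.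

IDEA (helper98, helper17). As in CT (see `CT/Spec.lean`), with the SUPPORT LEMMA of helper17 (SUP): the
`2`-chain between multiples of two loops `w` at `y` and `w'` at `y ev V`, with ANY winding numbers
`k`, `k'`, lives over the support of the filling `D` of the commutator word
`w (V w' V⁻¹) w⁻¹ (V w'⁻¹ V⁻¹)` (`g ^ k` and `g ^ k'` commute), so within
`C (2 |w| + 2 |w'| + 4 |V| + 1)` of `π y`, because fillings have a linear radius (ISR). So a long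
step (gap `d > A`) of the path of thin positions meets only `O(d)` levels, and `∑ d ≤ 2 τ`,
`A τ ≤ Λ = O(l m)`: for `A = O(l)` these are few levels. At all other levels the slices of the long
steps vanish, and `K₀ z` is the sum of the slices of the local steps.

The modules PHI, CAR, SUM, THN, CLU, LWT, LVQ, NMC of CT are used as they are. `lcl j` is
`idx (j + 1) ≤ idx j + A`.

FORM OF A MODULE: file `CD/XXX.lean`, imports this file, namespace `Pool.Agent.Lib.MP59b239.CD`,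
`open Pool.Agent.Lib.MP59b239.CJ Pool.Agent.Lib.MP59b239.CT`,
`theorem specXXX (hYYY : SpecYYY) ... : SpecXXX`; auxiliary lemmas in the namespace `XXXM`. (Inside the
namespace `CD` the names `SpecWGT`, … are those of `CD`.)
-/

namespace Pool.Agent.Lib.MP59b239.CD

open Pool.Agent.Lib.MP59b239.CJ Pool.Agent.Lib.MP59b239.CT

section

open scoped Classical

/-! ### Constants -/

/-- The radius of the support of a local step. -/
def dR (C A : ℕ) : ℕ := C * (8 * A + 1)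

/-- The distance of the regions of different clusters. -/
def dS (C ρ A : ℕ) : ℕ := 2 * dR C A + 2 * ρ + 2

/-- The gap of different clusters. -/
def dD (C ρ A : ℕ) : ℕ := dS C ρ A * (A + 2 * dS C ρ A)

/-- A position is near a level if the difference is at most this. -/
def dK (C ρ A : ℕ) : ℕ := dR C A + ρ + 2 * A + 1

/-! ### Part 1: the context -/

/-- **ISR** (from `CJ.SpecLEN`, `CJ.SpecREL`): the quadratic isoperimetric inequality with a linear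
bound for the radius of the filling.

Proof. As `CJ/ISO.lean`, `CJ/STR.lean`, `CJ/BDW.lean`, with supports: a filling of a word of length
`≤ 2 k + 2` at `x` has a support within `C₀` of `x` (finitely many words); the strip between
`u_i, u_{i+1} ∈ L` consists of such fillings at the points `ev (u_i.take t)`, within
`|u_i| + |u_{i+1}| ≤ 2 (|u₀| + K |w|)` of `1`. -/
def SpecISR : Prop :=
  ∀ (G : Type) [Group G] (n m : ℕ) (gen : Fin n → G) (rel : Fin m → List (Let n)),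
    Presents gen rel → Automatic gen → ∃ C : ℕ, ∀ w : List (Let n), ev gen w = 1 →
      ∃ c : G × Fin m →₀ ℤ, bd2 (rsh gen) rel c = chn (rsh gen) 1 w ∧
        nrm c ≤ C * (w.length + 1) ^ 2 ∧
        ∀ s, c s ≠ 0 → Rch (rsh gen) (C * (w.length + 1)) 1 s.1

/-- **MKX** (from `CJ.SpecREL`, `CJ.SpecTOR`, `CJ.SpecINJ`, `CJ.SpecQUO`, ISR, `CJ.SpecWND`,
`CT.SpecLWT`, `CT.SpecLVQ`): the context exists.

Proof. As `CT/MKC.lean`; `g_inf` from TOR; `injX` is `bd2_injective_of_aspherical`. -/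
def SpecMKX : Prop :=
  ∀ (G : Type) [Group G] (n m : ℕ) (gen : Fin n → G) (rel : Fin m → List (Let n)),
    Presents gen rel → Automatic gen → Aspherical gen rel → ∃ C ρ : ℕ, ∀ g : G, g ≠ 1 →
      Nonempty (Cx gen rel C ρ g)

/-! ### Part 2: the walk `W` -/

/-- **WGT** (from `CJ.SpecFLW`): the weight of a cycle with a nonzero winding number. As `CT/WGT.lean`. -/
def SpecWGT : Prop :=
  ∀ (G : Type) [Group G] (n m : ℕ) (gen : Fin n → G) (rel : Fin m → List (Let n)) (C ρ : ℕ)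
    (g : G) (X : Cx gen rel C ρ g) (z : X.Q × Fin n →₀ ℤ), bd1 X.σ z = 0 → X.ω z ≠ 0 →
      (1 : ℚ) ≤ ∑ e ∈ z.support, ((z e).natAbs : ℚ) / (X.l e.1 : ℚ)

/-- **COA** (from `CT.SpecCAR`, WGT): the growth of `φ` is bounded by the norm of a `2`-chain. As
`CT/COA.lean`. -/
def SpecCOA : Prop :=
  ∀ (G : Type) [Group G] (n m : ℕ) (gen : Fin n → G) (rel : Fin m → List (Let n)) (C ρ : ℕ)
    (g : G) (X : Cx gen rel C ρ g) (φ : X.Q → ℕ),
    (∀ (v : X.Q) (a : Let n), φ (stp X.σ v a) ≤ φ v + X.l (stp X.σ v a)) →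
    ∀ (c : X.Q × Fin m →₀ ℤ) (γ γ' : X.Q × Fin n →₀ ℤ) (a b : ℕ), bd2 X.σ rel c = γ - γ' →
      bd1 X.σ γ = 0 → X.ω γ ≠ 0 → (∀ e, γ e ≠ 0 → φ e.1 ≤ a) → (∀ e, γ' e ≠ 0 → b ≤ φ e.1) →
      b ≤ a + ρ ^ 2 * (2 * ρ + 1) * nrm c

/-- **CBD** (from COA): the cost of the walk `W`. As `CT/CBD.lean`. -/
def SpecCBD : Prop :=
  ∀ (G : Type) [Group G] (n m : ℕ) (gen : Fin n → G) (rel : Fin m → List (Let n)) (C ρ : ℕ)
    (g : G) (X : Cx gen rel C ρ g) (φ : X.Q → ℕ),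
    (∀ (v : X.Q) (a : Let n), φ (stp X.σ v a) ≤ φ v + X.l (stp X.σ v a)) → φ (X.π 1) = 0 →
    ∀ p q v : List (Let n), ev gen p = g → g * ev gen v = ev gen v * ev gen q →
    ∀ c : X.Q × Fin m →₀ ℤ, bd2 X.σ rel c = chn X.σ (X.π 1) p - chn X.σ (X.π (ev gen v)) q →
      φ (X.π (ev gen v)) ≤ p.length ^ 2 + q.length ^ 2 + ρ ^ 2 * (2 * ρ + 1) * nrm c

/-! ### Part 3: fillings between loops -/

/-- **SUP**: the support lemma.

Proof (helper17). Let `e = chn y w`, `f = chn y (V w' V⁻¹)` (chains of the Cayley graph) and let `D`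
be the filling, at `y`, of the word `w (V w' V⁻¹) w⁻¹ (V w'⁻¹ V⁻¹)`, which is closed because
`y ev(w) y⁻¹ = g ^ k` and `y ev(V w' V⁻¹) y⁻¹ = g ^ k'` commute: `bd2 D = (1 - g^k') e - (1 - g^k) f`
(left translations `mp (g^i * ·)`). `D` is within `C (2 |w| + 2 |w'| + 4 |V| + 1)` of `y` (`X.iso`,
translated by `y`). Let `B` be a filling of the closed word `w^k' (V w' V⁻¹)^{-k}` at `y`:
`bd2 B = M e - M' f`, `M = ∑ i < k', g^(k i)`, `M' = ∑ i < k, g^(k' i)`. As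
`(1 - g^k) M = (1 - g^k') M' = 1 - g^(k k')`, we get `bd2 (M M' D) = (1 - g^(k k')) bd2 B`, so
`M M' D = (1 - g^(k k')) B` (`X.injX`). If `D` vanishes on the `⟨g⟩`-orbit of a `2`-cell, then `B` is
invariant under `g^(k k')` on this orbit and has finite support, so `B = 0` there (`X.g_inf`). So the
support of `c₁ = mp X.π m B`, whose boundary is `k' • chn (π y) w - k • chn (π (y ev V)) w'`, is in the
projection of the support of `D`. Let `r` be the projection of a filling, at `y`, of the closed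
word `w^(K₀/k) V w'^{-(K₀/k')} V⁻¹`; `bd2 (k k' • r) = bd2 (K₀ • c₁)`, so `k k' • r = K₀ • c₁`
(`X.inj`) and `r` has the same support as `c₁`. (See `CT/RCH.lean` for the chains of powers.) -/
def SpecSUP : Prop :=
  ∀ (G : Type) [Group G] (n m : ℕ) (gen : Fin n → G) (rel : Fin m → List (Let n)) (C ρ : ℕ)
    (g : G) (X : Cx gen rel C ρ g) (K₀ k k' : ℕ) (y : G) (V w w' : List (Let n)),
    0 < K₀ → 0 < k → 0 < k' → k ∣ K₀ → k' ∣ K₀ → y * ev gen w = g ^ k * y →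
    (y * ev gen V) * ev gen w' = g ^ k' * (y * ev gen V) →
    ∃ r : X.Q × Fin m →₀ ℤ,
      bd2 X.σ rel r = ((K₀ / k : ℕ) : ℤ) • chn X.σ (X.π y) w -
        ((K₀ / k' : ℕ) : ℤ) • chn X.σ (X.π (y * ev gen V)) w' ∧
      ∀ s, r s ≠ 0 →
        Rch X.σ (C * (2 * w.length + 2 * w'.length + 4 * V.length + 1)) (X.π y) s.1

/-- A sequence of chains `μ 0, …, μ r` with the winding number `K₀` at the elements `y 0, …, y r`, and
`2`-chains `c j` with the boundary `μ j - μ (j + 1)`, near `y j`. -/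
structure Steps {G : Type} [Group G] {n m : ℕ} {gen : Fin n → G} {rel : Fin m → List (Let n)}
    {C ρ : ℕ} {g : G} (X : Cx gen rel C ρ g) (A K₀ : ℕ) where
  r : ℕ
  y : ℕ → G
  idx : ℕ → ℕ
  μ : ℕ → (X.Q × Fin n →₀ ℤ)
  c : ℕ → (X.Q × Fin m →₀ ℤ)
  K₀_pos : 0 < K₀
  idx_lt : ∀ j < r, idx j < idx (j + 1)
  bd1_μ : ∀ j ≤ r, bd1 X.σ (μ j) = 0
  ω_μ : ∀ j ≤ r, X.ω (μ j) = K₀
  supp_μ : ∀ j ≤ r, ∀ e, μ j e ≠ 0 →
    X.F e.1 ≤ X.F (X.π (y j)) + A ∧ X.F (X.π (y j)) ≤ X.F e.1 + A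
  bd2_c : ∀ j < r, bd2 X.σ rel (c j) = μ j - μ (j + 1)
  supp_c : ∀ j < r, ∀ s, c j s ≠ 0 →
    Rch X.σ (C * (4 * A + 4 * (idx (j + 1) - idx j) + 1)) (X.π (y j)) s.1
  rch : ∀ i j, i ≤ j → j ≤ r → Rch X.σ (idx j - idx i) (X.π (y i)) (X.π (y j))
  sep : ∀ i j, i ≤ r → j ≤ r → Rch X.σ (dS C ρ A) (X.π (y i)) (X.π (y j)) →
    idx j ≤ idx i + dD C ρ A

/-- **PTH** (from SUP, `CT.SpecTHN`): the steps along the walk `W`.

Proof. Write `y_i = ev (W.take i)`; `P i` iff `l (π y_i) ≤ A`. `P 0`: `p` is a loop at `1` with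
winding number `1`, so `l (π 1) ≤ |p| ≤ A`. `P |W|`: `q` is a loop at `ev W`, `k = 1`:
`π (ev W) = π (ev v)`, so `ev v = g ^ i * ev W`, hence `ev W * ev q = g * ev W`. THN (`N = |W|`) gives
`r`, `idx`; `r ≥ 1` as `W ≠ []`. `y j := y_{idx j}`. Choose loops `w_j, k_j` (`0 < k_j`, `|w_j| ≤ A`,
`y j * ev w_j = g ^ k_j * y j`) from `X.l_att`, for `j = 0`: `p, 1`, for `j = r`: `q, 1`.
`K₀ = ∏ j ≤ r, k_j`. `μ j := (K₀ / k_j) • chn (π (y j)) w_j`: `bd1 = 0` (`X.wlk_loop`),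
`ω = (K₀ / k_j) k_j = K₀`, the edges are within `A` of `π (y j)` (`rch_of_chn_ne_zero`,
`le_add_of_rch`, `Rch.symm`, `X.F_stp`). `c j` from SUP with `V = (W.take (idx (j+1))).drop (idx j)`,
`|V| = idx (j+1) - idx j`, `y j * ev V = y (j+1)`. `rch`: the subword. `sep`: let `idx i < idx j` and
`w` the walk, `|w| ≤ dS`; all vertices of `w` have `l ≤ l (π (y i)) + 2 |w| ≤ A + 2 dS` (`X.l_stp`), so
`cst w ≤ dS (A + 2 dS) = dD`, and the minimality gives the claim. The sum: THN for `D = A ≥ 1`. -/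
def SpecPTH : Prop :=
  ∀ (G : Type) [Group G] (n m : ℕ) (gen : Fin n → G) (rel : Fin m → List (Let n)) (C ρ : ℕ)
    (g : G) (X : Cx gen rel C ρ g) (A τ : ℕ) (p q v W : List (Let n)),
    ev gen p = g → g * ev gen v = ev gen v * ev gen q → X.π (ev gen W) = X.π (ev gen v) →
    1 ≤ A → p.length ≤ A → q.length ≤ A → 0 < W.length →
    (∀ i i', i ≤ i' → i' ≤ W.length → ∀ w : List (Let n),
      wlk X.σ (X.π (ev gen (W.take i))) w = X.π (ev gen (W.take i')) →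
        i' ≤ i + cst X.σ X.l (X.π (ev gen (W.take i))) w) →
    ((Finset.range (W.length + 1)).filter fun i =>
      ¬ X.l (X.π (ev gen (W.take i))) ≤ A).card ≤ τ →
    ∃ (K₀ : ℕ) (S : Steps X A K₀), S.r ≤ W.length ∧
      X.π (S.y 0) = X.π 1 ∧ X.π (S.y S.r) = X.π (ev gen v) ∧
      S.μ 0 = (K₀ : ℤ) • chn X.σ (X.π 1) p ∧
      S.μ S.r = (K₀ : ℤ) • chn X.σ (X.π (ev gen v)) q ∧
      ∑ j ∈ (Finset.range S.r).filter (fun j => ¬ S.idx (j + 1) ≤ S.idx j + A),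
        (S.idx (j + 1) - S.idx j) ≤ 2 * τ

/-! ### Part 4: the levels -/

/-- **RGZ**: the part of a cycle in a separated region.

Proof. `U` and `U'` are disjoint (`Rch σ 2 x x`). `z e ≠ 0` implies `S e ≠ 0` or `T e ≠ 0`, so `U e.1` or
`U' e.1`. Let `z' = z.filter (U ·.1)`, `z'' = z - z'`. For `U e.1` we have `T e = 0`, otherwise `z' e = 0`
and `S e = 0`: so `K₀ • z' = S` and `K₀ * ω z' = ω S = K₀`, `ω z' = 1`. If `bd1 z' ≠ 0`, at a vertex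
`x`, then `x` is an end (`e.1` or `σ e.2 e.1`) of an edge `e` with `U e.1`; `bd1 z'' = -bd1 z'`, so
`x` is also an end of an edge `e'` with `z'' e' ≠ 0`, so `U' e'.1`: there is a walk of length `≤ 2` from
`e.1` to `e'.1`, contradiction. -/
def SpecRGZ : Prop :=
  ∀ (V : Type) (n : ℕ) (σ : Fin n → Equiv.Perm V) (ω : (V × Fin n →₀ ℤ) →ₗ[ℤ] ℤ) (K₀ : ℕ),
    0 < K₀ → ∀ (U U' : V → Prop) (z S T : V × Fin n →₀ ℤ),
      (K₀ : ℤ) • z = S + T → bd1 σ z = 0 →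
      (∀ e, S e ≠ 0 → U e.1) → (∀ e, T e ≠ 0 → U' e.1) →
      (∀ x x', U x → U' x' → ¬ Rch σ 2 x x') → ω S = K₀ →
      ∃ z' : V × Fin n →₀ ℤ, bd1 σ z' = 0 ∧ ω z' = 1 ∧ nrm z' ≤ nrm z ∧ ∀ e, z' e ≠ 0 → U e.1

/-- **LVT** (from RGZ, `CT.SpecCLU`): a good level.

Proof. As `CT/LVT.lean`. `lcl j := idx (j+1) ≤ idx j + A`; `F_j = F (π (y j))`,
`sl_j = sl X.σ rel X.F t (S.c j)`; `near j := F_j ≤ t + dK ∧ t ≤ F_j + dK`,
`clear j := F_j + A < t ∨ t + A < F_j`, `s j := t < F_j`.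
(1) If `clear j` (`j ≤ r`) then `lo X.F t (μ j)` is `μ j` if `¬ s j`, and `0` if `s j`. (2) For
`a ≤ b ≤ r`: `∑_{a ≤ j < b} sl_j = sl (∑ c j)` and `bd2 (∑_{a ≤ j < b} c j) = μ a - μ b`, so if
`clear a`, `clear b`: `ω (∑ sl_j) = ω (lo (μ a)) - ω (lo (μ b))` (`X.ω_sl`). (3) `¬ lcl j`: `j`, `j+1` are
clear and `sl_j = 0`, so by (1), (2), `0 = ω (lo (μ j)) - ω (lo (μ (j+1)))`, and `K₀ > 0` gives
`s j ↔ s (j+1)`. (4) `lcl j` and `sl_j e ≠ 0` imply `near j` and `Rch (dR + ρ) (π (y j)) e.1`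
(`exists_of_sl_ne_zero`, `supp_c`, `4 A + 4 gap + 1 ≤ 8 A + 1`). (5) `lcl j`, `¬ near j`:
`|F_{j+1} - F_j| ≤ A < dK`, so `s j ↔ s (j+1)`. CLU with `D₂ = dD C ρ A` (`≥ A`) gives `a, b, j₀`.
(6) RGZ with `U x := ∃ j, a ≤ j < b, lcl j, near j, Rch (dR + ρ) (π (y j)) x`,
`U' x := ∃ j < r, ¬ (a ≤ j < b), lcl j, near j, Rch (dR + ρ) (π (y j)) x`, `S = ∑_{[a,b)} sl_j`,
`T = ∑_{not [a,b)} sl_j` (the terms with `¬ lcl j` vanish), `ω S = K₀` by (2), (1). If `U x`, `U' x'`,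
`Rch 2 x x'`, then `Rch dS (π (y j)) (π (y i))`, and `sep` contradicts CLU. -/
def SpecLVT : Prop :=
  ∀ (G : Type) [Group G] (n m : ℕ) (gen : Fin n → G) (rel : Fin m → List (Let n)) (C ρ : ℕ)
    (g : G) (X : Cx gen rel C ρ g) (A K₀ : ℕ) (S : Steps X A K₀) (t ν : ℕ)
    (z : X.Q × Fin n →₀ ℤ),
    X.F (X.π (S.y 0)) + dK C ρ A < t → t + dK C ρ A < X.F (X.π (S.y S.r)) →
    (K₀ : ℤ) • z = ∑ j ∈ Finset.range S.r, sl X.σ rel X.F t (S.c j) → bd1 X.σ z = 0 →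
    (∀ j < S.r, ¬ S.idx (j + 1) ≤ S.idx j + A →
      sl X.σ rel X.F t (S.c j) = 0 ∧
      (X.F (X.π (S.y j)) + A < t ∨ t + A < X.F (X.π (S.y j))) ∧
      (X.F (X.π (S.y (j + 1))) + A < t ∨ t + A < X.F (X.π (S.y (j + 1))))) →
    ((Finset.range S.r).filter fun j => X.F (X.π (S.y j)) ≤ t + dK C ρ A ∧
      t ≤ X.F (X.π (S.y j)) + dK C ρ A).card ≤ ν →
    ∃ j₀, j₀ < S.r ∧ X.F (X.π (S.y j₀)) ≤ t + dK C ρ A ∧
      t ≤ X.F (X.π (S.y j₀)) + dK C ρ A ∧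
      ∃ z' : X.Q × Fin n →₀ ℤ, bd1 X.σ z' = 0 ∧ X.ω z' = 1 ∧ nrm z' ≤ nrm z ∧
        ∀ e, z' e ≠ 0 → Rch X.σ (ν * dD C ρ A + dR C A + ρ) (X.π (S.y j₀)) e.1

/-- **VER** (from `CJ.SpecFLW`): a word from a cycle. As `CT/VER.lean`. -/
def SpecVER : Prop :=
  ∀ (G : Type) [Group G] (n m : ℕ) (gen : Fin n → G) (rel : Fin m → List (Let n)) (C ρ : ℕ)
    (g : G) (X : Cx gen rel C ρ g) (y₀ : G) (R : ℕ) (z : X.Q × Fin n →₀ ℤ),
    bd1 X.σ z = 0 → X.ω z = 1 → (∀ e, z e ≠ 0 → Rch X.σ R (X.π y₀) e.1) →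
    ∃ u : List (Let n), u.length ≤ nrm z * (2 * R + 3) ∧ y₀ * ev gen u = g * y₀

/-- **PG2**: the number of levels with a short word. As `CT/PG2.lean`. -/
def SpecPG2 : Prop :=
  ∀ (G : Type) [Group G] (n m : ℕ) (gen : Fin n → G) (rel : Fin m → List (Let n)) (C ρ : ℕ)
    (g : G) (X : Cx gen rel C ρ g) (V R : ℕ) (T : Finset ℕ),
    (∀ t ∈ T, ∃ (y : G) (u : List (Let n)), u.length ≤ V ∧ y * ev gen u = g * y ∧
      X.F (X.π y) ≤ t + R ∧ t ≤ X.F (X.π y) + R) →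
    T.card ≤ (2 * R + 1) * (2 * n + 1) ^ V

/-- **TOT** (from `CT.SpecSUM`, LVT, VER, PG2): the number of levels.

Proof. As `CT/TOT.lean`. Write `κ = dK C ρ A`. Let `T` be the set of the `t` with `a + κ < t`,
`t + κ < b`; we may assume `b > a + 2 κ + 1`, `|T| = b - a - 2 κ - 1`. For `t ∈ T` let
`z_t = sl X.σ rel X.F t c`. By `X.inj`, `∑_{j < r} c j = K₀ • c` (telescoping, `bd2_c`), so
`K₀ • z_t = ∑_j sl_t (c j)`. `lo X.F t (γ - γ') = γ`, so `bd1 z_t = bd1 γ = 0`. `Ba`: the number of the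
`t ∈ T` with `nrm z_t > L`: `(L + 1) Ba ≤ ρ ^ 2 nrm c` (SUM). `Bd`: the number of the `t ∈ T` with more
than `ν` near `j < r`: `(ν + 1) Bd ≤ (2 κ + 1) r`. For a long `j` (gap `d = idx (j+1) - idx j > A`) the
`t` with `sl_t (c j) ≠ 0` satisfy `|F_j - t| ≤ C (4 A + 4 d + 1) + ρ ≤ 8 C d + ρ`
(`exists_of_sl_ne_zero`, `supp_c`, `le_add_of_rch`), at most `(16 C + 2 ρ + 1) d` of them, and the
`t` for which `j` or `j + 1` is not clear (`|F - t| ≤ A`) are at most `2 (2 A + 1) ≤ 4 d`. So the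
number of the `t` excluded by long steps is `≤ (16 C + 2 ρ + 5) * ∑ d ≤ (32 C + 4 ρ + 10) τ`. For the
other `t ∈ T` LVT applies and gives `y = S.y j₀` and `z'`, and VER (`R = ν dD + dR + ρ`) a word `u`,
`|u| ≤ nrm z' (2 R + 3) ≤ L (2 R + 3)`; by PG2 their number is
`≤ (2 κ + 1) (2 n + 1) ^ (L (2 R + 3))`. -/
def SpecTOT : Prop :=
  ∀ (G : Type) [Group G] (n m : ℕ) (gen : Fin n → G) (rel : Fin m → List (Let n)) (C ρ : ℕ)
    (g : G) (X : Cx gen rel C ρ g) (A K₀ : ℕ) (S : Steps X A K₀)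
    (c : X.Q × Fin m →₀ ℤ) (γ γ' : X.Q × Fin n →₀ ℤ) (a b τ : ℕ),
    1 ≤ A → S.μ 0 = (K₀ : ℤ) • γ → S.μ S.r = (K₀ : ℤ) • γ' → bd2 X.σ rel c = γ - γ' →
    bd1 X.σ γ = 0 → (∀ e, γ e ≠ 0 → X.F e.1 ≤ a) → (∀ e, γ' e ≠ 0 → b ≤ X.F e.1) →
    X.F (X.π (S.y 0)) ≤ a → b ≤ X.F (X.π (S.y S.r)) →
    ∑ j ∈ (Finset.range S.r).filter (fun j => ¬ S.idx (j + 1) ≤ S.idx j + A),
      (S.idx (j + 1) - S.idx j) ≤ 2 * τ →
    ∀ L ν : ℕ, ∃ Ba Bd : ℕ, (L + 1) * Ba ≤ ρ ^ 2 * nrm c ∧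
      (ν + 1) * Bd ≤ (2 * dK C ρ A + 1) * S.r ∧
      b ≤ a + 2 * dK C ρ A + 1 + Ba + (32 * C + 4 * ρ + 10) * τ + Bd +
        (2 * dK C ρ A + 1) * (2 * n + 1) ^ (L * (2 * (ν * dD C ρ A + dR C A + ρ) + 3))

/-- The inequalities for the minimal length `m` of a conjugator, `l = |p| + |q|`. -/
def NumHyp (C ρ n l m : ℕ) : Prop :=
  ∃ c : ℕ, (∀ N : ℕ, 0 < N → N * c ≤ C * (N * l + 2 * m + 1) ^ 2) ∧
    ∀ A : ℕ, l ≤ A → 1 ≤ A → ∃ τ : ℕ,
      A * τ ≤ (l + 1) ^ 2 + ρ ^ 2 * (2 * ρ + 1) * c ∧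
      ∀ L ν : ℕ, ∃ Ba Bd : ℕ, (L + 1) * Ba ≤ ρ ^ 2 * c ∧
        (ν + 1) * Bd ≤ (2 * dK C ρ A + 1) * ((l + 1) ^ 2 + ρ ^ 2 * (2 * ρ + 1) * c) ∧
        m ≤ l + 2 * dK C ρ A + 1 + Ba + (32 * C + 4 * ρ + 10) * τ + Bd +
          (2 * dK C ρ A + 1) * (2 * n + 1) ^ (L * (2 * (ν * dD C ρ A + dR C A + ρ) + 3))

/-- **BNT** (from `CJ.SpecANN`, `CT.SpecPHI`, CBD, PTH, TOT): the inequalities hold.

Proof. `c` from ANN (`X.inj`, `X.iso`), `nrm c` satisfies the first inequality (`N |p| + N |q| = N l`).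
PHI for `X.Q`, `X.l`, `v₀ = π 1` (connected: `X.surj`, `X.gens`, `QD.wlk`) gives `φ` and `W` with
`π (ev W) = wlk (π 1) W = π (ev v)`, `cst W = φ (π (ev v)) ≤ Λ₀ := |p| ^ 2 + |q| ^ 2 + ρ ^ 2 (2 ρ + 1) nrm c`
(CBD). `|W| ≤ cst W` (`length_le_cst`), and `W ≠ []` because `F (π (ev v)) = |v| > 0 = F (π 1)`.
`l (π 1) ≤ |p|` (`X.l_le`), so the sum of `l (π (ev (W.take i)))` over `i ≤ |W|` is `≤ |p| + Λ₀ ≤
(l + 1) ^ 2 + ρ ^ 2 (2 ρ + 1) nrm c`. Let `τ` be the number of the `i ≤ |W|` with `l (…) > A`; the sum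
is `≥ A τ`. PTH gives `S`, TOT with `γ = chn (π 1) p`, `γ' = chn (π (ev v)) q`, `a = |p|`,
`b = |v| - |q|` (edges of `γ` have `F ≤ |p|`, those of `γ'` have `F ≥ F (π (ev v)) - |q|`:
`rch_of_chn_ne_zero`, `le_add_of_rch`) gives the rest, as `S.r ≤ |W| ≤ Λ₀`. -/
def SpecBNT : Prop :=
  ∀ (G : Type) [Group G] (n m : ℕ) (gen : Fin n → G) (rel : Fin m → List (Let n)) (C ρ : ℕ)
    (g : G) (X : Cx gen rel C ρ g) (p q v : List (Let n)),
    ev gen p = g → g * ev gen v = ev gen v * ev gen q → v.length = X.F (X.π (ev gen v)) →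
    0 < v.length → NumHyp C ρ n (p.length + q.length) v.length

/-! ### Part 5: numbers -/

/-- The scale `A`. -/
def dA (C ρ l : ℕ) : ℕ := 8 * (32 * C + 4 * ρ + 10) * kB C ρ * (l + 1)

/-- The bound for the number of near positions. -/
def dN (C ρ A l : ℕ) : ℕ := 8 * (2 * dK C ρ A + 1) * kB C ρ * (l + 1)

/-- The bound for the length of the words. -/
def dV (C ρ A l : ℕ) : ℕ := kL C ρ l * (2 * (dN C ρ A l * dD C ρ A + dR C A + ρ) + 3)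

/-- The final bound. -/
def dM (C ρ n A l : ℕ) : ℕ :=
  2 * l + 4 * dK C ρ A + 4 + 2 * (2 * dK C ρ A + 1) * (2 * n + 1) ^ dV C ρ A l

/-- **NMA** (from `CT.SpecNMC`): the choice of the parameters.

Proof. `lam = l + 1`, `M = m + 1`; `c ≤ 16 C lam M`, so
`Λ := (l + 1) ^ 2 + ρ ^ 2 (2 ρ + 1) c ≤ kB C ρ * lam * M`. Take `A = dA C ρ l` (`≥ l + 1`),
`L = kL C ρ l`, `ν = dN C ρ A l`. With `c₁ = 32 C + 4 ρ + 10`: `8 c₁ kB lam τ ≤ kB lam M`, so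
`8 c₁ τ ≤ M`. `(L + 1) Ba ≤ 16 C ρ ^ 2 lam M` and `L = 8 * (16 C ρ ^ 2 lam)`, so `8 Ba ≤ M` (if
`16 C ρ ^ 2 lam = 0` then `Ba = 0`). `(ν + 1) Bd ≤ (2 κ + 1) kB lam M`, `ν = 8 (2 κ + 1) kB lam`, so
`8 Bd ≤ M`. So `8 m ≤ 8 (l + 2 κ + 1) + 3 (m + 1) + 8 (2 κ + 1) (2 n + 1) ^ dV`, and
`5 m ≤ 8 l + 16 κ + 11 + 8 (2 κ + 1) (2 n + 1) ^ dV ≤ 5 dM`. -/
def SpecNMA : Prop :=
  ∀ C ρ n l m : ℕ, NumHyp C ρ n l m → l ≤ m → m ≤ dM C ρ n (dA C ρ l) l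

/-- **NMB**: the growth.

Proof. Let `x = l + 1 ≥ 1`. `dA = a₀ x` with `a₀ = 8 (32 C + 4 ρ + 10) kB`; `dR ≤ C (8 a₀ + 1) x`,
`dS ≤ a₁ x`, `dD ≤ a₂ x ^ 2`, `dK ≤ a₃ x`, `dN ≤ a₄ x ^ 2`, `kL = a₅ x`, `dV ≤ a₆ x ^ 5`
(constants depend on `C, ρ` only). So `dM ≤ 2 x + 4 a₃ x + 4 + 2 (2 a₃ x + 1) (2 n + 1) ^ (a₆ x ^ 5)`,
and with `y = x ^ 5 ≥ x`, `x ≤ 2 ^ y`, this is `≤ K ^ y`,
`K = (2 + 4 a₃ + 4 + 2 (2 a₃ + 1)) * 2 * (2 n + 1) ^ a₆` (say). -/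
def SpecNMB : Prop :=
  ∀ C ρ n : ℕ, ∃ K : ℕ, ∀ l : ℕ, dM C ρ n (dA C ρ l) l ≤ K ^ ((l + 1) ^ 5)

/-- **CBT** (from MKX, BNT, NMA, NMB): the length of a conjugator.

Proof. `C, ρ` from MKX, `K` from NMB for `C, ρ, n`. `g = ev p`, `ev q = x⁻¹ g x` (`isConj_iff`). If `g = 1`
then `ev q = 1` and `v = []`. Otherwise `X` from MKX. `X.F_att`: `x = z * ev v`, `z g = g z`,
`|v| = F (π x) = F (π (ev v))` (`X.F_com`), and `(ev v)⁻¹ g (ev v) = x⁻¹ z g z⁻¹ x = ev q`. If `|v| = 0`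
trivial; otherwise BNT, and NMA if `l ≤ |v|`; if `|v| < l` then `|v| ≤ l ≤ dM …` directly. -/
def SpecCBT : Prop :=
  ∀ (G : Type) [Group G] (n m : ℕ) (gen : Fin n → G) (rel : Fin m → List (Let n)),
    Presents gen rel → Automatic gen → Aspherical gen rel →
    ∃ K : ℕ, ∀ p q : List (Let n), IsConj (ev gen p) (ev gen q) →
      ∃ v : List (Let n), v.length ≤ K ^ ((p.length + q.length + 1) ^ 5) ∧
        (ev gen v)⁻¹ * ev gen p * ev gen v = ev gen q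

/-- **PR3** (from `CJ.SpecWRD`, `CJ.SpecANY`): bounded search.

Proof. As `CT/PR2.lean`, with the bound `K ^ ((|p| + |q| + 1) ^ 5)`, a primitive recursive function of
`(p, q)`. -/
def SpecPR3 : Prop :=
  ∀ (G : Type) [Group G] (n : ℕ) (gen : Fin n → G),
    (ComputablePred fun w : List (Let n) => ev gen w = 1) → ∀ K : ℕ,
    (∀ p q : List (Let n), IsConj (ev gen p) (ev gen q) →
      ∃ v : List (Let n), v.length ≤ K ^ ((p.length + q.length + 1) ^ 5) ∧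
        (ev gen v)⁻¹ * ev gen p * ev gen v = ev gen q) →
    ComputablePred fun p : List (Let n) × List (Let n) => IsConj (ev gen p.1) (ev gen p.2)

/-- The theorem. -/
def SpecMAIN3 : Prop :=
  ∀ (G : Type) [Group G] (n m : ℕ) (gen : Fin n → G) (rel : Fin m → List (Let n)),
    Presents gen rel → Automatic gen → Aspherical gen rel →
    (ComputablePred fun p : List (Let n) × List (Let n) =>
      IsConj (ev gen p.1) (ev gen p.2)) ∧
    ∃ K : ℕ, ∀ p q : List (Let n), IsConj (ev gen p) (ev gen q) →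
      ∃ v : List (Let n), v.length ≤ K ^ ((p.length + q.length + 1) ^ 5) ∧
        (ev gen v)⁻¹ * ev gen p * ev gen v = ev gen q

theorem specMAIN3 (hCBT : SpecCBT) (hWPC : SpecWPC) (hPR3 : SpecPR3) : SpecMAIN3 := by
  intro G _ n m gen rel hp ha has
  obtain ⟨K, hK⟩ := hCBT G n m gen rel hp ha has
  exact ⟨hPR3 G n gen (hWPC G n gen ha) K hK, K, hK⟩

end

end Pool.Agent.Lib.MP59b239.CD
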